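import Mathlib

/-!
# Walks and balls in coset graphs of finite groups

`S` is a finite symmetric subset of the group `G` containing `1` and invariant under multiplication
by the subgroup `H`. The vertices are the cosets `g H`; the cosets of `x` and `y` are joined if
`x⁻¹ * y ∈ S`.
-/

set_option autoImplicit false
set_option linter.unusedSectionVars false

open Finset
open scoped Pointwise

namespace Pool.Agent.N533.LC

variable {G : Type*} [Group G] [Fintype G] [DecidableEq G]

/-- The data: a symmetric set containing `1`, invariant under left multiplication by `H`. -/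
structure Sys (H : Subgroup G) (S : Finset G) : Prop where
  one : (1 : G) ∈ S
  inv : ∀ x ∈ S, x⁻¹ ∈ S
  left : ∀ h ∈ H, ∀ x ∈ S, h * x ∈ S

variable {H : Subgroup G} {S : Finset G}

namespace Sys

lemma right (hS : Sys H S) {h x : G} (hh : h ∈ H) (hx : x ∈ S) : x * h ∈ S := by
  have h1 := hS.inv _ (hS.left h⁻¹ (H.inv_mem hh) x⁻¹ (hS.inv x hx))
  simpa using h1

lemma sub (hS : Sys H S) {h : G} (hh : h ∈ H) : h ∈ S := by
  have := hS.left h hh 1 hS.one
  simpa using this

lemma pow_mono (hS : Sys H S) {m n : ℕ} (h : m ≤ n) : S ^ m ⊆ S ^ n :=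
  Finset.pow_subset_pow_right hS.one h

lemma one_pow (hS : Sys H S) (n : ℕ) : (1 : G) ∈ S ^ n :=
  hS.pow_mono (Nat.zero_le n) (by simp)

lemma inv_pow (hS : Sys H S) {n : ℕ} {x : G} (hx : x ∈ S ^ n) : x⁻¹ ∈ S ^ n := by
  have h1 : S⁻¹ = S := by
    ext y
    rw [Finset.mem_inv']
    constructor
    · intro hy
      simpa using hS.inv _ hy
    · exact hS.inv y
  have h2 : (S ^ n)⁻¹ = S ^ n := by rw [← _root_.inv_pow, h1]
  rw [← h2]
  simpa using hx

lemma mul_pow {m n : ℕ} {x y : G} (hx : x ∈ S ^ m) (hy : y ∈ S ^ n) : x * y ∈ S ^ (m + n) := by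
  rw [pow_add]
  exact Finset.mul_mem_mul hx hy

lemma right_pow (hS : Sys H S) {n : ℕ} (hn : 1 ≤ n) {x h : G} (hx : x ∈ S ^ n) (hh : h ∈ H) :
    x * h ∈ S ^ n := by
  obtain ⟨m, rfl⟩ : ∃ m, n = m + 1 := ⟨n - 1, by omega⟩
  rw [pow_succ] at hx ⊢
  obtain ⟨u, hu, v, hv, rfl⟩ := Finset.mem_mul.1 hx
  rw [mul_assoc]
  exact Finset.mul_mem_mul hu (hS.right hh hv)

lemma mem_one (hS : Sys H S) {x : G} (hx : x ∈ S) : x ∈ S ^ 1 := by simpa using hx

end Sys

/-- `Conn S U n x y`: there is a walk of length `n` from `x` to `y` inside `U`. -/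
def Conn (S : Finset G) (U : Set G) (n : ℕ) (x y : G) : Prop :=
  ∃ p : ℕ → G, p 0 = x ∧ p n = y ∧ (∀ i < n, (p i)⁻¹ * p (i + 1) ∈ S) ∧ ∀ i ≤ n, p i ∈ U

lemma Conn.trans {U : Set G} {m n : ℕ} {x y z : G} (h1 : Conn S U m x y) (h2 : Conn S U n y z) :
    Conn S U (m + n) x z := by
  obtain ⟨p, p0, pm, ps, pU⟩ := h1
  obtain ⟨q, q0, qn, qs, qU⟩ := h2
  refine ⟨fun i => if i ≤ m then p i else q (i - m), by simp [p0], ?_, ?_, ?_⟩
  · by_cases hn : n = 0
    · subst hn; simp [pm, ← qn, q0]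
    · simp [show ¬ (m + n ≤ m) by omega, qn]
  · intro i hi
    rcases lt_trichotomy i m with h | h | h
    · simp only [h.le, if_true, show i + 1 ≤ m from h]
      exact ps i h
    · subst h
      simp only [le_refl, if_true, show ¬ (i + 1 ≤ i) by omega, if_false, pm]
      rw [← q0, show i + 1 - i = 0 + 1 by omega]
      exact qs 0 (by omega)
    · simp only [show ¬ (i ≤ m) by omega, show ¬ (i + 1 ≤ m) by omega, if_false]
      rw [show i + 1 - m = (i - m) + 1 by omega]
      exact qs _ (by omega)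
  · intro i hi
    by_cases h : i ≤ m
    · simp only [h, if_true]; exact pU i h
    · simp only [h, if_false]; exact qU _ (by omega)

lemma Conn.symm (hS : Sys H S) {U : Set G} {n : ℕ} {x y : G} (h : Conn S U n x y) :
    Conn S U n y x := by
  obtain ⟨p, p0, pn, ps, pU⟩ := h
  refine ⟨fun i => p (n - i), by simp [pn], by simp [p0], ?_, fun i hi => pU _ (by omega)⟩
  intro i hi
  have h1 := hS.inv _ (ps (n - (i + 1)) (by omega))
  rw [show n - (i + 1) + 1 = n - i by omega] at h1
  simpa using h1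

lemma Conn.mono {U V : Set G} (h : U ⊆ V) {n : ℕ} {x y : G} (h1 : Conn S U n x y) :
    Conn S V n x y := by
  obtain ⟨p, p0, pn, ps, pU⟩ := h1
  exact ⟨p, p0, pn, ps, fun i hi => h (pU i hi)⟩

lemma Conn.stay (hS : Sys H S) {U : Set G} {m n : ℕ} (hmn : m ≤ n) {x y : G}
    (h : Conn S U m x y) : Conn S U n x y := by
  obtain ⟨p, p0, pm, ps, pU⟩ := h
  refine ⟨fun i => p (min i m), by simp [p0], by simp [hmn, pm], ?_, fun i _ => pU _ (by omega)⟩
  intro i hi
  by_cases h : i < m
  · simp only [show min i m = i by omega, show min (i + 1) m = i + 1 by omega]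
    exact ps i h
  · simp only [show min i m = m by omega, show min (i + 1) m = m by omega]
    simpa using hS.one

lemma Conn.translate {U V : Set G} (a : G) (h : ∀ u ∈ U, a * u ∈ V) {n : ℕ} {x y : G}
    (h1 : Conn S U n x y) : Conn S V n (a * x) (a * y) := by
  obtain ⟨p, p0, pn, ps, pU⟩ := h1
  refine ⟨fun i => a * p i, by simp [p0], by simp [pn], ?_, fun i hi => h _ (pU i hi)⟩
  intro i hi
  have : (a * p i)⁻¹ * (a * p (i + 1)) = (p i)⁻¹ * p (i + 1) := by group
  rw [this]
  exact ps i hi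

lemma Conn.left_mem {U : Set G} {n : ℕ} {x y : G} (h : Conn S U n x y) : x ∈ U := by
  obtain ⟨p, p0, _, _, pU⟩ := h
  rw [← p0]; exact pU 0 (Nat.zero_le _)

lemma Conn.right_mem {U : Set G} {n : ℕ} {x y : G} (h : Conn S U n x y) : y ∈ U := by
  obtain ⟨p, _, pn, _, pU⟩ := h
  rw [← pn]; exact pU n le_rfl

/-- One step. -/
lemma Conn.single {U : Set G} {x y : G} (hx : x ∈ U) (hy : y ∈ U) (h : x⁻¹ * y ∈ S) :
    Conn S U 1 x y := by
  refine ⟨fun i => if i = 0 then x else y, by simp, by simp, ?_, ?_⟩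
  · intro i hi
    have : i = 0 := by omega
    subst this
    simpa using h
  · intro i _
    by_cases h : i = 0 <;> simp [h, hx, hy]

/-- Words: every element of `S ^ n` is reached from `1` by a walk whose `i`-th vertex is in
`S ^ i`. -/
lemma exists_word (n : ℕ) : ∀ x ∈ S ^ n, ∃ p : ℕ → G, p 0 = 1 ∧ p n = x ∧
    (∀ i < n, (p i)⁻¹ * p (i + 1) ∈ S) ∧ ∀ i ≤ n, p i ∈ S ^ i := by
  induction n with
  | zero =>
    intro x hx
    refine ⟨fun _ => 1, rfl, ?_, by omega, ?_⟩
    · have h1 : x = 1 := by simpa using hx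
      exact h1.symm
    · intro i hi
      have : i = 0 := by omega
      subst this; simp
  | succ n ih =>
    intro x hx
    rw [pow_succ] at hx
    obtain ⟨u, hu, v, hv, rfl⟩ := Finset.mem_mul.1 hx
    obtain ⟨p, p0, pn, ps, pU⟩ := ih u hu
    refine ⟨fun i => if i ≤ n then p i else u * v, by simp [p0], by simp, ?_, ?_⟩
    · intro i hi
      rcases lt_or_eq_of_le (Nat.lt_succ_iff.1 hi) with h | h
      · simp only [h.le, if_true, show i + 1 ≤ n from h]
        exact ps i h
      · subst h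
        simp only [le_refl, if_true, show ¬ (i + 1 ≤ i) by omega, if_false, pn]
        simpa using hv
    · intro i hi
      by_cases h : i ≤ n
      · simp only [h, if_true]; exact pU i h
      · simp only [h, if_false]
        have : i = n + 1 := by omega
        subst this
        rw [pow_succ]
        exact Finset.mul_mem_mul hu hv

/-- The chosen walk of length `n` from `1` to `x ∈ S ^ n`. -/
noncomputable def wd (S : Finset G) (n : ℕ) (x : G) : ℕ → G :=
  open Classical in if h : x ∈ S ^ n then (exists_word n x h).choose else fun _ => 1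

lemma wd_spec {n : ℕ} {x : G} (h : x ∈ S ^ n) : wd S n x 0 = 1 ∧ wd S n x n = x ∧
    (∀ i < n, (wd S n x i)⁻¹ * wd S n x (i + 1) ∈ S) ∧ ∀ i ≤ n, wd S n x i ∈ S ^ i := by
  unfold wd
  rw [dif_pos h]
  exact (exists_word n x h).choose_spec

/-- The walk from `a` to `a * g` hits the set `Z` of cosets. -/
def Hit (H : Subgroup G) (S : Finset G) (Z : Finset (G ⧸ H)) (r : ℕ) (a g : G) : Prop :=
  ∃ i ≤ r, ((a * wd S r g i : G) : G ⧸ H) ∈ Z

lemma not_hit_conn (hS : Sys H S) {Z : Finset (G ⧸ H)} {r : ℕ} {a g : G} (hg : g ∈ S ^ r)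
    (h : ¬ Hit H S Z r a g) :
    Conn S {x | (x : G ⧸ H) ∉ Z ∧ a⁻¹ * x ∈ S ^ r} r a (a * g) := by
  obtain ⟨w0, wn, ws, wU⟩ := wd_spec hg
  refine ⟨fun i => a * wd S r g i, by simp [w0], by simp [wn], ?_, ?_⟩
  · intro i hi
    have : (a * wd S r g i)⁻¹ * (a * wd S r g (i + 1)) = (wd S r g i)⁻¹ * wd S r g (i + 1) := by
      group
    rw [this]
    exact ws i hi
  · intro i hi
    refine ⟨fun h1 => h ⟨i, hi, h1⟩, ?_⟩
    simpa using hS.pow_mono hi (wU i hi)

lemma card_fiber (q : G ⧸ H) [DecidableEq (G ⧸ H)] :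
    (univ.filter fun x : G => (x : G ⧸ H) = q).card = Nat.card H := by
  classical
  obtain ⟨x0, rfl⟩ := QuotientGroup.mk_surjective q
  rw [Nat.card_eq_fintype_card, Fintype.card_subtype]
  symm
  refine Finset.card_bij (fun h _ => x0 * h) ?_ ?_ ?_
  · intro h hh
    simp only [mem_filter, mem_univ, true_and] at hh ⊢
    rw [QuotientGroup.eq]
    simpa using H.inv_mem hh
  · intro a _ b _ hab
    exact mul_left_cancel hab
  · intro b hb
    simp only [mem_filter, mem_univ, true_and] at hb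
    rw [eq_comm, QuotientGroup.eq] at hb
    exact ⟨x0⁻¹ * b, by simpa using hb, by simp⟩

lemma card_preimage (Z : Finset (G ⧸ H)) [DecidableEq (G ⧸ H)] :
    (univ.filter fun x : G => (x : G ⧸ H) ∈ Z).card = Nat.card H * Z.card := by
  classical
  rw [Finset.card_eq_sum_card_fiberwise (f := fun x : G => (x : G ⧸ H)) (t := Z)]
  · rw [Finset.sum_congr rfl (g := fun _ => Nat.card H), Finset.sum_const, smul_eq_mul, mul_comm]
    intro q hq
    rw [← card_fiber q]
    congr 1
    ext x
    simp only [mem_filter, mem_univ, true_and]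
    constructor
    · exact fun h => h.2
    · rintro rfl
      exact ⟨hq, rfl⟩
  · intro x hx
    simpa using hx

open Classical in
/-- The basic counting lemma: few pairs `(a, g)` have walks that hit a small set. -/
lemma count_hit (Q : Finset G) (Z Z' : Finset (G ⧸ H)) (r : ℕ)
    (hZ : ∀ a ∈ Q, ∀ u ∈ S ^ r, ((a * u : G) : G ⧸ H) ∈ Z → ((a * u : G) : G ⧸ H) ∈ Z')
    (hS : Sys H S) :
    ((Q ×ˢ (S ^ r)).filter fun p => Hit H S Z r p.1 p.2).card ≤
      (r + 1) * (S ^ r).card * (Nat.card H * Z'.card) := by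
  set W := univ.filter fun x : G => (x : G ⧸ H) ∈ Z' with hW
  have h1 : ((Q ×ˢ (S ^ r)).filter fun p => Hit H S Z r p.1 p.2) ⊆
      ((range (r + 1) ×ˢ (S ^ r)) ×ˢ W).image
        (fun t => (t.2 * (wd S r t.1.2 t.1.1)⁻¹, t.1.2)) := by
    rintro ⟨a, g⟩ hp
    simp only [mem_filter, mem_product] at hp
    obtain ⟨⟨ha, hg⟩, i, hi, hm⟩ := hp
    rw [mem_image]
    refine ⟨((i, g), a * wd S r g i), ?_, by simp⟩
    simp only [mem_product, mem_range]
    refine ⟨⟨by omega, hg⟩, ?_⟩
    rw [hW, mem_filter]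
    exact ⟨mem_univ _, hZ a ha _ (hS.pow_mono hi ((wd_spec hg).2.2.2 i hi)) hm⟩
  calc _ ≤ _ := card_le_card h1
    _ ≤ _ := card_image_le
    _ = _ := by rw [card_product, card_product, card_range, hW, card_preimage]

end Pool.Agent.N533.LC
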