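import Pool.Agent.N533.LC.Run

/-!
# Nets and tours
-/

set_option autoImplicit false
set_option linter.unusedSectionVars false

open Finset
open scoped Pointwise

namespace Pool.Agent.N533.LC

variable {G : Type*} [Group G] [Fintype G] [DecidableEq G]
variable {H : Subgroup G} {S : Finset G}

lemma exists_net (hS : Sys H S) (n : ℕ) : ∃ X : Finset G,
    (∀ x ∈ X, ∀ x' ∈ X, x ≠ x' → x⁻¹ * x' ∉ S ^ n) ∧ ∀ g : G, ∃ x ∈ X, x⁻¹ * g ∈ S ^ n := by
  classical
  set F := (univ : Finset (Finset G)).filter
    fun X => ∀ x ∈ X, ∀ x' ∈ X, x ≠ x' → x⁻¹ * x' ∉ S ^ n with hF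
  have hne : F.Nonempty := ⟨∅, by rw [hF, mem_filter]; simp⟩
  obtain ⟨X, hX, hmax⟩ := exists_max_image F (fun X => X.card) hne
  rw [hF, mem_filter] at hX
  refine ⟨X, hX.2, ?_⟩
  intro g
  by_contra hcon
  push Not at hcon
  have hg : g ∉ X := by
    intro h
    apply hcon g h
    rw [inv_mul_cancel]
    exact hS.one_pow n
  have h1 := hmax (insert g X) (by
    rw [hF, mem_filter]
    refine ⟨mem_univ _, ?_⟩
    intro x hx x' hx' hne
    rw [mem_insert] at hx hx'
    rcases hx with rfl | hx <;> rcases hx' with rfl | hx'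
    · exact absurd rfl hne
    · intro h
      apply hcon x' hx'
      have := hS.inv_pow h
      simpa using this
    · exact hcon x hx
    · exact hX.2 x hx x' hx' hne)
  rw [card_insert_of_notMem hg] at h1
  omega

lemma net_card (n : ℕ) {X : Finset G} (hX : ∀ g : G, ∃ x ∈ X, x⁻¹ * g ∈ S ^ n) :
    Fintype.card G ≤ X.card * (S ^ n).card := by
  classical
  rw [← card_product, ← card_univ]
  refine card_le_card_of_surjOn (fun p => p.1 * p.2) ?_
  intro g _
  obtain ⟨x, hx, hg⟩ := hX g
  exact ⟨(x, x⁻¹ * g), mem_coe.2 (mem_product.2 ⟨hx, hg⟩), by simp⟩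

open Classical in
lemma net_near (hS : Sys H S) {r R : ℕ} {X : Finset G}
    (hX : ∀ x ∈ X, ∀ x' ∈ X, x ≠ x' → x⁻¹ * x' ∉ S ^ (2 * r)) (z : G) :
    (X.filter fun x => z⁻¹ * x ∈ S ^ R).card * (S ^ r).card ≤ (S ^ (R + r)).card := by
  rw [← card_product]
  refine card_le_card_of_injOn (fun p => z⁻¹ * p.1 * p.2) ?_ ?_
  · rintro ⟨x, u⟩ hp
    simp only [coe_product, Set.mem_prod, mem_coe, mem_filter] at hp
    exact Sys.mul_pow hp.1.2 hp.2
  · rintro ⟨x, u⟩ hp ⟨x', u'⟩ hp' h
    simp only [coe_product, Set.mem_prod, mem_coe, mem_filter] at hp hp' h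
    have h1 : x * u = x' * u' := by
      rw [mul_assoc, mul_assoc] at h
      exact mul_left_cancel h
    have h2 : x = x' := by
      by_contra hne
      apply hX x hp.1.1 x' hp'.1.1 hne
      have h3 : x⁻¹ * x' = u * u'⁻¹ := by
        rw [inv_mul_eq_iff_eq_mul, ← mul_assoc, h1]
        group
      rw [h3, two_mul]
      exact Sys.mul_pow hp.2 (hS.inv_pow hp'.2)
    subst h2
    rw [mul_left_cancel h1]

lemma mem_pow_of_gen (hS : Sys H S) (hgen : Subgroup.closure (S : Set G) = ⊤) (g : G) :
    ∃ n, g ∈ S ^ n := by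
  have hg : g ∈ Subgroup.closure (S : Set G) := by rw [hgen]; trivial
  induction hg using Subgroup.closure_induction with
  | mem x hx => exact ⟨1, by simpa using hx⟩
  | one => exact ⟨0, by simp⟩
  | mul x y _ _ hx hy =>
    obtain ⟨m, hm⟩ := hx
    obtain ⟨n, hn⟩ := hy
    exact ⟨m + n, Sys.mul_pow hm hn⟩
  | inv x _ hx =>
    obtain ⟨m, hm⟩ := hx
    exact ⟨m, hS.inv_pow hm⟩

lemma net_step (hS : Sys H S) (hgen : Subgroup.closure (S : Set G) = ⊤) {r : ℕ} (hr : 1 ≤ r)
    {X Y : Finset G} (hX : ∀ g : G, ∃ x ∈ X, x⁻¹ * g ∈ S ^ (2 * r)) {x0 : G} (hx0 : x0 ∈ Y)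
    (hXY : ∃ v ∈ X, v ∉ Y) : ∃ u ∈ Y, ∃ v ∈ X, v ∉ Y ∧ u⁻¹ * v ∈ S ^ (5 * r) := by
  by_contra hcon
  push Not at hcon
  have key : ∀ n, ∀ g ∈ S ^ n, ∃ u ∈ Y, u⁻¹ * (x0 * g) ∈ S ^ (2 * r) := by
    intro n
    induction n with
    | zero =>
      intro g hg
      have : g = 1 := by simpa using hg
      subst this
      refine ⟨x0, hx0, ?_⟩
      simpa using hS.one_pow (2 * r)
    | succ n ih =>
      intro g hg
      rw [pow_succ] at hg
      obtain ⟨a, ha, s, hs, rfl⟩ := Finset.mem_mul.1 hg
      obtain ⟨u, hu, hua⟩ := ih a ha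
      obtain ⟨x, hx, hxa⟩ := hX (x0 * (a * s))
      by_cases hxY : x ∈ Y
      · exact ⟨x, hxY, hxa⟩
      · exfalso
        apply hcon u hu x hx hxY
        have : u⁻¹ * x = (u⁻¹ * (x0 * a)) * s * (x⁻¹ * (x0 * (a * s)))⁻¹ := by group
        rw [this]
        exact hS.pow_mono (by omega : 2 * r + 1 + 2 * r ≤ 5 * r)
          (Sys.mul_pow (Sys.mul_pow hua (hS.mem_one hs)) (hS.inv_pow hxa))
  obtain ⟨v, hv, hvY⟩ := hXY
  obtain ⟨n, hn⟩ := mem_pow_of_gen hS hgen (x0⁻¹ * v)
  obtain ⟨u, hu, huv⟩ := key n _ hn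
  rw [mul_inv_cancel_left] at huv
  exact hcon u hu v hv hvY (hS.pow_mono (by omega) huv)

lemma chain_detour {α : Type*} {R : α → α → Prop} {u v : α} (huv : R u v) (hvv : R v v)
    (hvu : R v u) (huu : R u u) (m : ℕ) : (u :: (List.replicate m v ++ [u])).IsChain R := by
  have key : ∀ m, (v :: (List.replicate m v ++ [u])).IsChain R := by
    intro m
    induction m with
    | zero => simpa using hvu
    | succ m ih =>
      rw [List.replicate_succ, List.cons_append, List.isChain_cons_cons]
      exact ⟨hvv, ih⟩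
  cases m with
  | zero => simpa using huu
  | succ m =>
    rw [List.replicate_succ, List.cons_append, List.isChain_cons_cons]
    exact ⟨huv, key m⟩

open Classical in
lemma exists_tour (hS : Sys H S) (hgen : Subgroup.closure (S : Set G) = ⊤) {r m : ℕ}
    (hr : 1 ≤ r) (hm : 1 ≤ m) {X : Finset G} (hX : ∀ g : G, ∃ x ∈ X, x⁻¹ * g ∈ S ^ (2 * r))
    {x0 : G} (hx0 : x0 ∈ X) (n : ℕ) (hn : 1 ≤ n) (hnX : n ≤ X.card) :
    ∃ Y ⊆ X, Y.card = n ∧ x0 ∈ Y ∧ ∃ l : List G, l.IsChain (fun a b => a⁻¹ * b ∈ S ^ (5 * r)) ∧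
      l.head? = some x0 ∧ l.getLast? = some x0 ∧ (∀ x ∈ Y, x ∈ l) ∧ m * n ≤ l.length ∧
      ∀ z : G, l.countP (fun x => z⁻¹ * x ∈ S ^ (39 * r)) ≤
        (m + 1) * (Y.filter fun x => z⁻¹ * x ∈ S ^ (44 * r)).card := by
  have hrefl : ∀ a : G, a⁻¹ * a ∈ S ^ (5 * r) := by
    intro a
    rw [inv_mul_cancel]
    exact hS.one_pow _
  induction n, hn using Nat.le_induction with
  | base =>
    refine ⟨{x0}, by simpa using hx0, by simp, by simp, List.replicate m x0, ?_, ?_, ?_, ?_, ?_, ?_⟩
    · obtain ⟨m, rfl⟩ : ∃ k, m = k + 1 := ⟨m - 1, by omega⟩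
      clear hm
      induction m with
      | zero => simp
      | succ m ih =>
        rw [List.replicate_succ, List.replicate_succ, List.isChain_cons_cons]
        exact ⟨hrefl x0, by rw [← List.replicate_succ]; exact ih⟩
    · rw [List.head?_replicate, if_neg (by omega)]
    · rw [List.getLast?_replicate, if_neg (by omega)]
    · intro x hx
      rw [mem_singleton] at hx
      subst hx
      rw [List.mem_replicate]
      exact ⟨by omega, rfl⟩
    · simp
    · intro z
      by_cases hz : z⁻¹ * x0 ∈ S ^ (39 * r)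
      · rw [filter_true_of_mem]
        · refine List.countP_le_length.trans ?_
          simp
        · intro x hx
          rw [mem_singleton] at hx
          subst hx
          exact hS.pow_mono (by omega) hz
      · have : (List.replicate m x0).countP (fun x => z⁻¹ * x ∈ S ^ (39 * r)) = 0 := by
          rw [List.countP_eq_zero]
          intro a ha
          rw [List.eq_of_mem_replicate ha]
          simpa using hz
        rw [this]
        exact Nat.zero_le _
  | succ n hn ih =>
    obtain ⟨Y, hYX, hYc, hx0Y, l, h1, h2, h3, h4, h5, h6⟩ := ih (by omega)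
    obtain ⟨u, hu, v, hv, hvY, huv⟩ := net_step hS hgen hr hX hx0Y (by
      by_contra hcon
      push Not at hcon
      have := card_le_card (fun v hv => hcon v hv : X ⊆ Y)
      omega)
    obtain ⟨l1, l2, rfl⟩ := List.append_of_mem (h4 u hu)
    have hvu : v⁻¹ * u ∈ S ^ (5 * r) := by
      have := hS.inv_pow huv
      simpa using this
    refine ⟨insert v Y, insert_subset hv hYX, by rw [card_insert_of_notMem hvY, hYc],
      mem_insert_of_mem hx0Y, l1 ++ u :: (List.replicate m v ++ u :: l2), ?_, ?_, ?_, ?_, ?_, ?_⟩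
    · rw [List.isChain_split] at h1 ⊢
      refine ⟨h1.1, ?_⟩
      have e : u :: (List.replicate m v ++ u :: l2) = (u :: List.replicate m v) ++ u :: l2 := rfl
      rw [e, List.isChain_split]
      exact ⟨chain_detour (R := fun a b : G => a⁻¹ * b ∈ S ^ (5 * r)) huv (hrefl v) hvu
        (hrefl u) m, h1.2⟩
    · cases l1 with
      | nil => simpa using h2
      | cons a l1 => simpa using h2
    · rw [List.getLast?_append_cons] at h3 ⊢
      have e : u :: (List.replicate m v ++ u :: l2) = (u :: List.replicate m v) ++ u :: l2 := rfl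
      rw [e, List.getLast?_append_cons]
      exact h3
    · intro x hx
      rw [mem_insert] at hx
      rcases hx with rfl | hx
      · have : x ∈ List.replicate m x := List.mem_replicate.2 ⟨by omega, rfl⟩
        simp [this]
      · have := h4 x hx
        simp only [List.mem_append, List.mem_cons] at this ⊢
        tauto
    · simp only [List.length_append, List.length_cons, List.length_replicate] at h5 ⊢
      rw [mul_add]
      omega
    · intro z
      have h7 := h6 z
      simp only [List.countP_append, List.countP_cons] at h7 ⊢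
      rw [filter_insert]
      by_cases hz : z⁻¹ * v ∈ S ^ (44 * r)
      · rw [if_pos hz, card_insert_of_notMem (by
          rw [mem_filter]
          exact fun h => hvY h.1)]
        have h8 : (List.replicate m v).countP (fun x => z⁻¹ * x ∈ S ^ (39 * r)) ≤ m := by
          refine List.countP_le_length.trans ?_
          simp
        have h9 : (if decide (z⁻¹ * u ∈ S ^ (39 * r)) = true then 1 else 0) ≤ 1 := by
          split_ifs <;> omega
        rw [mul_add]
        omega
      · rw [if_neg hz]
        have h8 : (List.replicate m v).countP (fun x => z⁻¹ * x ∈ S ^ (39 * r)) = 0 := by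
          rw [List.countP_eq_zero]
          intro a ha
          rw [List.eq_of_mem_replicate ha]
          simp only [decide_eq_true_eq]
          intro h
          exact hz (hS.pow_mono (by omega) h)
        have h9 : (if decide (z⁻¹ * u ∈ S ^ (39 * r)) = true then 1 else 0) = 0 := by
          rw [if_neg]
          simp only [decide_eq_true_eq]
          intro h
          apply hz
          have e : z⁻¹ * v = (z⁻¹ * u) * (u⁻¹ * v) := by group
          rw [e]
          exact hS.pow_mono (by omega) (Sys.mul_pow h huv)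
        omega

end Pool.Agent.N533.LC
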