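import Pool.Agent.N533.LC.Basic

/-!
# Connected sets of prescribed size in a ball
-/

set_option autoImplicit false
set_option linter.unusedSectionVars false

open Finset
open scoped Pointwise

namespace Pool.Agent.N533.LC

variable {G : Type*} [Group G] [Fintype G] [DecidableEq G]
variable {H : Subgroup G} {S : Finset G}

/-- A connected set of representatives of different cosets in the ball of radius `r`. -/
structure Core (H : Subgroup G) (S : Finset G) (r : ℕ) (K : Finset G) : Prop where
  sub : K ⊆ S ^ r
  one : (1 : G) ∈ K
  inj : Set.InjOn (fun x : G => (x : G ⧸ H)) K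
  conn : ∀ k ∈ K, Conn S (K : Set G) r 1 k

open Classical in
/-- The number of vertices in the ball of radius `r`. -/
noncomputable def Nv (H : Subgroup G) (S : Finset G) (r : ℕ) : ℕ :=
  ((S ^ r).image fun x : G => (x : G ⧸ H)).card

lemma card_pow_eq (hS : Sys H S) {r : ℕ} (hr : 1 ≤ r) : (S ^ r).card = Nat.card H * Nv H S r := by
  classical
  unfold Nv
  rw [← card_preimage]
  congr 1
  ext x
  simp only [mem_filter, mem_univ, true_and, mem_image]
  constructor
  · intro hx
    exact ⟨x, hx, rfl⟩
  · rintro ⟨y, hy, hyx⟩
    rw [QuotientGroup.eq] at hyx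
    have := hS.right_pow hr hy hyx
    simpa using this

lemma exists_core (hS : Sys H S) (r : ℕ) : ∀ s, 1 ≤ s → s ≤ Nv H S r →
    ∃ K, Core H S r K ∧ K.card = s := by
  classical
  induction r with
  | zero =>
    intro s h1 h2
    have h3 : Nv H S 0 = 1 := by
      unfold Nv
      simp
    refine ⟨{1}, ⟨by simp, by simp, by simp, ?_⟩, ?_⟩
    · intro k hk
      rw [mem_singleton] at hk
      subst hk
      exact ⟨fun _ => 1, rfl, rfl, by omega, by simp⟩
    · rw [card_singleton]; omega
  | succ r ih =>
    intro s h1 h2
    by_cases hs : s ≤ Nv H S r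
    · obtain ⟨K, hK, hc⟩ := ih s h1 hs
      exact ⟨K, ⟨hK.sub.trans (hS.pow_mono (Nat.le_succ r)), hK.one, hK.inj,
        fun k hk => (hK.conn k hk).stay hS (Nat.le_succ r)⟩, hc⟩
    · push Not at hs
      have hpos : 1 ≤ Nv H S r := by
        unfold Nv
        rw [Nat.one_le_iff_ne_zero, Ne, card_eq_zero, image_eq_empty]
        exact Finset.Nonempty.ne_empty ⟨1, hS.one_pow r⟩
      obtain ⟨K, hK, hc⟩ := ih (Nv H S r) hpos le_rfl
      have hfull : K.image (fun x : G => (x : G ⧸ H)) =
          (S ^ r).image (fun x : G => (x : G ⧸ H)) := by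
        apply eq_of_subset_of_card_le (image_subset_image hK.sub)
        rw [card_image_of_injOn hK.inj, hc]
        rfl
      set D := (S ^ (r + 1)).image (fun x : G => (x : G ⧸ H)) \
        (S ^ r).image (fun x : G => (x : G ⧸ H)) with hD
      have hDc : s - Nv H S r ≤ D.card := by
        have := le_card_sdiff ((S ^ r).image (fun x : G => (x : G ⧸ H)))
          ((S ^ (r + 1)).image (fun x : G => (x : G ⧸ H)))
        change Nv H S (r + 1) - Nv H S r ≤ D.card at this
        omega
      obtain ⟨E', hE'D, hE'c⟩ := exists_subset_card_eq hDc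
      have hrep : ∀ q : G ⧸ H, ∃ x : G, q ∈ E' → (x ∈ S ^ (r + 1) ∧ (x : G ⧸ H) = q) := by
        intro q
        by_cases hq : q ∈ E'
        · have := hE'D hq
          rw [hD, mem_sdiff, mem_image] at this
          obtain ⟨⟨x, hx, hxq⟩, -⟩ := this
          exact ⟨x, fun _ => ⟨hx, hxq⟩⟩
        · exact ⟨1, fun h => absurd h hq⟩
      choose rep hrep using hrep
      have hrepinj : Set.InjOn rep E' := by
        intro a ha b hb hab
        rw [← (hrep a ha).2, ← (hrep b hb).2, hab]
      have hKE : ∀ x ∈ E'.image rep, (x : G ⧸ H) ∉ K.image (fun x : G => (x : G ⧸ H)) := by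
        intro x hx
        rw [mem_image] at hx
        obtain ⟨q, hq, rfl⟩ := hx
        rw [(hrep q hq).2, hfull]
        have := hE'D hq
        rw [hD, mem_sdiff] at this
        exact this.2
      refine ⟨K ∪ E'.image rep, ⟨?_, ?_, ?_, ?_⟩, ?_⟩
      · apply union_subset (hK.sub.trans (hS.pow_mono (Nat.le_succ r)))
        intro x hx
        rw [mem_image] at hx
        obtain ⟨q, hq, rfl⟩ := hx
        exact (hrep q hq).1
      · exact mem_union_left _ hK.one
      · intro a ha b hb hab
        simp only [coe_union, Set.mem_union, mem_coe] at ha hb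
        rcases ha with ha | ha <;> rcases hb with hb | hb
        · exact hK.inj ha hb hab
        · exfalso
          apply hKE b hb
          rw [mem_image]
          exact ⟨a, ha, hab⟩
        · exfalso
          apply hKE a ha
          rw [mem_image]
          exact ⟨b, hb, hab.symm⟩
        · rw [mem_image] at ha hb
          obtain ⟨q, hq, rfl⟩ := ha
          obtain ⟨q', hq', rfl⟩ := hb
          simp only at hab
          rw [(hrep q hq).2, (hrep q' hq').2] at hab
          rw [hab]
      · intro k hk
        rw [mem_union] at hk
        have hsub : (K : Set G) ⊆ ((K ∪ E'.image rep : Finset G) : Set G) := by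
          rw [coe_union]
          exact Set.subset_union_left
        rcases hk with hk | hk
        · exact ((hK.conn k hk).mono hsub).stay hS (Nat.le_succ r)
        · have hk' := hk
          rw [mem_image] at hk
          obtain ⟨q, hq, rfl⟩ := hk
          have hx := (hrep q hq).1
          rw [pow_succ] at hx
          obtain ⟨u, hu, t, ht, hut⟩ := Finset.mem_mul.1 hx
          have hu' : (u : G ⧸ H) ∈ K.image (fun x : G => (x : G ⧸ H)) := by
            rw [hfull, mem_image]
            exact ⟨u, hu, rfl⟩
          rw [mem_image] at hu'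
          obtain ⟨k, hk, hku⟩ := hu'
          rw [QuotientGroup.eq] at hku
          refine ((hK.conn k hk).mono hsub).trans (Conn.single (hsub hk) ?_ ?_)
          · exact mem_coe.2 (mem_union_right _ hk')
          · rw [← hut, ← mul_assoc]
            exact hS.left _ hku t ht
      · rw [card_union_of_disjoint, card_image_of_injOn hrepinj, hc, hE'c]
        · omega
        · rw [disjoint_left]
          intro x hx hx'
          apply hKE x hx'
          rw [mem_image]
          exact ⟨x, hx, rfl⟩

end Pool.Agent.N533.LC
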