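import Pool.Agent.N533.LC.Tools

/-!
# One step of the construction: from a core to a fresh core
-/

set_option autoImplicit false
set_option linter.unusedSectionVars false

open Finset
open scoped Pointwise

namespace Pool.Agent.N533.LC

variable {G : Type*} [Group G] [Fintype G] [DecidableEq G]
variable {H : Subgroup G} {S : Finset G}

open Classical in
/-- A fresh core in the ball of radius `r` around `c'`. -/
lemma exists_fresh (hS : Sys H S) {r τ : ℕ} (hr : 1 ≤ r) {K : Finset G} (hK : Core H S r K)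
    {c' : G} {Z Pn F : Finset (G ⧸ H)} (hPn : Pn.card ≤ τ) (hF : F.card ≤ K.card)
    (hnear : ∀ x : G, c'⁻¹ * x ∈ S ^ (3 * r) → (x : G ⧸ H) ∈ Z → (x : G ⧸ H) ∈ Pn)
    (hN : Nat.card H * ((τ + K.card) * K.card + 8 * (r + 1) * τ) < (S ^ r).card) :
    ∃ y' : G, c'⁻¹ * y' ∈ S ^ r ∧ (∀ k ∈ K, ((y' * k : G) : G ⧸ H) ∉ Z ∧
      ((y' * k : G) : G ⧸ H) ∉ F) ∧
      8 * harm H S r K Z y' ≤ (sat H K).card * (S ^ r).card := by
  set Y := (S ^ r).image (c' * ·) with hY
  have hYc : Y.card = (S ^ r).card := by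
    rw [hY, card_image_of_injective _ (mul_right_injective c')]
  have hYm : ∀ y' ∈ Y, c'⁻¹ * y' ∈ S ^ r := by
    intro y' hy'
    rw [hY, mem_image] at hy'
    obtain ⟨u, hu, rfl⟩ := hy'
    simpa using hu
  set bad1 := Y.filter fun y' => ∃ k ∈ K, ((y' * k : G) : G ⧸ H) ∈ Z ∨ ((y' * k : G) : G ⧸ H) ∈ F
    with hb1
  set bad2 := Y.filter fun y' => (sat H K).card * (S ^ r).card < 8 * harm H S r K Z y' with hb2
  have hc1 : bad1.card ≤ Nat.card H * (τ + K.card) * K.card := by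
    set W := univ.filter fun x : G => (x : G ⧸ H) ∈ Pn ∪ F with hW
    have h1 : bad1 ⊆ (W ×ˢ K).image fun p => p.1 * p.2⁻¹ := by
      intro y' hy'
      rw [hb1, mem_filter] at hy'
      obtain ⟨hy1, k, hk, hk2⟩ := hy'
      rw [mem_image]
      refine ⟨(y' * k, k), ?_, by simp⟩
      rw [mem_product]
      refine ⟨?_, hk⟩
      rw [hW, mem_filter]
      refine ⟨mem_univ _, ?_⟩
      rw [mem_union]
      rcases hk2 with h | h
      · left
        apply hnear _ _ h
        rw [← mul_assoc]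
        refine hS.pow_mono (by omega : r + r ≤ 3 * r) (Sys.mul_pow (hYm y' hy1) (hK.sub hk))
      · exact Or.inr h
    calc bad1.card ≤ _ := card_le_card h1
      _ ≤ _ := card_image_le
      _ = W.card * K.card := card_product _ _
      _ = Nat.card H * (Pn ∪ F).card * K.card := by rw [hW, card_preimage]
      _ ≤ Nat.card H * (τ + K.card) * K.card := by
        gcongr
        exact (card_union_le _ _).trans (by omega)
  have hc2 : bad2.card ≤ 8 * (r + 1) * (Nat.card H * τ) := by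
    have hpos : 0 < (sat H K).card * (S ^ r).card := by
      apply Nat.mul_pos
      · exact card_pos.2 ⟨1, subset_sat hK.one⟩
      · exact card_pos.2 ⟨1, hS.one_pow r⟩
    have h1 : bad2.card * ((sat H K).card * (S ^ r).card) ≤ ∑ y' ∈ bad2, 8 * harm H S r K Z y' := by
      rw [← smul_eq_mul, ← sum_const]
      refine sum_le_sum fun y' hy' => ?_
      rw [hb2, mem_filter] at hy'
      exact hy'.2.le
    have h2 : ∑ y' ∈ bad2, 8 * harm H S r K Z y' ≤ ∑ y' ∈ Y, 8 * harm H S r K Z y' :=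
      sum_le_sum_of_subset (filter_subset _ _)
    have h3 : ∑ y' ∈ Y, harm H S r K Z y' ≤
        (sat H K).card * ((r + 1) * (S ^ r).card * (Nat.card H * τ)) := by
      simp only [harm_eq]
      rw [sum_comm, ← smul_eq_mul (a := (sat H K).card), ← sum_const]
      refine sum_le_sum fun k hk => ?_
      have h4 := count_hit' (S := S) (Y.image (· * k)) Z Pn r ?_ hS
      · rw [sum_image (fun a _ b _ h => mul_right_cancel h)] at h4
        refine h4.trans ?_
        gcongr
      · intro a ha u hu h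
        rw [mem_image] at ha
        obtain ⟨y', hy', rfl⟩ := ha
        refine hnear _ ?_ h
        have h5 : c'⁻¹ * (y' * k * u) = (c'⁻¹ * y') * k * u := by group
        rw [h5]
        have h6 := Sys.mul_pow (Sys.mul_pow (hYm y' hy') (sat_sub hS hr hK hk)) hu
        exact hS.pow_mono (by omega) h6
    have h4 : bad2.card * ((sat H K).card * (S ^ r).card) ≤
        (8 * (r + 1) * (Nat.card H * τ)) * ((sat H K).card * (S ^ r).card) := by
      calc _ ≤ _ := h1
        _ ≤ _ := h2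
        _ = 8 * ∑ y' ∈ Y, harm H S r K Z y' := by rw [mul_sum]
        _ ≤ 8 * ((sat H K).card * ((r + 1) * (S ^ r).card * (Nat.card H * τ))) := by gcongr
        _ = _ := by ring
    exact Nat.le_of_mul_le_mul_right h4 hpos
  have hlt : (bad1 ∪ bad2).card < Y.card := by
    calc (bad1 ∪ bad2).card ≤ bad1.card + bad2.card := card_union_le _ _
      _ ≤ Nat.card H * (τ + K.card) * K.card + 8 * (r + 1) * (Nat.card H * τ) := by omega
      _ = Nat.card H * ((τ + K.card) * K.card + 8 * (r + 1) * τ) := by ring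
      _ < _ := by rw [hYc]; exact hN
  obtain ⟨y', hy', hn⟩ := exists_mem_notMem_of_card_lt_card hlt
  rw [mem_union, not_or, hb1, hb2, mem_filter, mem_filter] at hn
  obtain ⟨hn1, hn2⟩ := hn
  refine ⟨y', hYm y' hy', ?_, ?_⟩
  · intro k hk
    constructor
    · intro h
      exact hn1 ⟨hy', k, hk, Or.inl h⟩
    · intro h
      exact hn1 ⟨hy', k, hk, Or.inr h⟩
  · by_contra h
    push Not at h
    exact hn2 ⟨hy', h⟩

open Classical in
/-- The end points of the free walks from a good vertex of a core. -/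
lemma exists_spread (hS : Sys H S) {r : ℕ} {K : Finset G} (hne : (sat H K).Nonempty)
    {Z : Finset (G ⧸ H)} {y : G} {a : ℕ}
    (ha : a * harm H S r K Z y ≤ (sat H K).card * (S ^ r).card) :
    ∃ k ∈ sat H K, ∃ A : Finset G, a * (S ^ r).card ≤ a * A.card + (S ^ r).card ∧
      ∀ x ∈ A, (y * k)⁻¹ * x ∈ S ^ r ∧
        Conn S {x | (x : G ⧸ H) ∉ Z ∧ (y * k)⁻¹ * x ∈ S ^ r} r (y * k) x := by
  obtain ⟨k, hk, h⟩ := exists_good (S := S) hne ha
  refine ⟨k, hk, ((S ^ r).filter fun g => ¬ Hit H S Z r (y * k) g).image (y * k * ·), ?_, ?_⟩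
  · rw [card_image_of_injective _ (mul_right_injective (y * k))]
    have h1 := card_filter_add_card_filter_not (s := S ^ r) (fun g => Hit H S Z r (y * k) g)
    calc a * (S ^ r).card = a * ((S ^ r).filter fun g => ¬ Hit H S Z r (y * k) g).card +
          a * ((S ^ r).filter fun g => Hit H S Z r (y * k) g).card := by rw [← h1]; ring
      _ ≤ _ := by omega
  · intro x hx
    rw [mem_image] at hx
    obtain ⟨g, hg, rfl⟩ := hx
    rw [mem_filter] at hg
    refine ⟨by rw [inv_mul_cancel_left]; exact hg.1, ?_⟩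
    exact not_hit_conn hS hg.1 hg.2

open Classical in
/-- A free walk between two large sets. -/
lemma exists_pair (hS : Sys H S) {ρ τ : ℕ} {A B : Finset G} {Z Pn : Finset (G ⧸ H)}
    (hPn : Pn.card ≤ τ) (hAB : ∀ a ∈ A, ∀ b ∈ B, a⁻¹ * b ∈ S ^ ρ)
    (hnear : ∀ a ∈ A, ∀ u ∈ S ^ ρ, ((a * u : G) : G ⧸ H) ∈ Z → ((a * u : G) : G ⧸ H) ∈ Pn)
    (hN : (ρ + 1) * (S ^ ρ).card * (Nat.card H * τ) < A.card * B.card) :
    ∃ a ∈ A, ∃ b ∈ B, Conn S {x | (x : G ⧸ H) ∉ Z ∧ a⁻¹ * x ∈ S ^ ρ} ρ a b := by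
  by_contra hcon
  push Not at hcon
  have h0 : ∀ a ∈ A, ∀ b ∈ B, Hit H S Z ρ a (a⁻¹ * b) := by
    intro a ha b hb
    by_contra h
    apply hcon a ha b hb
    have := not_hit_conn hS (hAB a ha b hb) h
    rwa [mul_inv_cancel_left] at this
  have h1 := count_hit A Z Pn ρ hnear hS
  have h2 : (A ×ˢ B).card ≤ ((A ×ˢ (S ^ ρ)).filter fun p => Hit H S Z ρ p.1 p.2).card := by
    refine card_le_card_of_injOn (fun p => (p.1, p.1⁻¹ * p.2)) ?_ ?_
    · intro p hp
      rw [mem_coe, mem_product] at hp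
      simp only [mem_coe, mem_filter, mem_product]
      exact ⟨⟨hp.1, hAB _ hp.1 _ hp.2⟩, h0 _ hp.1 _ hp.2⟩
    · rintro ⟨a, b⟩ _ ⟨a', b'⟩ _ h
      simp only [Prod.mk.injEq] at h
      obtain ⟨rfl, h⟩ := h
      rw [mul_right_injective _ h]
  rw [card_product] at h2
  have h3 : (ρ + 1) * (S ^ ρ).card * (Nat.card H * Pn.card) ≤
      (ρ + 1) * (S ^ ρ).card * (Nat.card H * τ) := by gcongr
  omega

/-- The state of the construction: a path which ends in the core `y K` and is otherwise disjoint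
from it, and does not block the walks from the core too much. -/
structure State (H : Subgroup G) (S : Finset G) (r : ℕ) (K : Finset G) (L : ℕ) (f : ℕ → G)
    (y : G) : Prop where
  path : PathF H S L f
  core_mem : ∃ k ∈ K, ((y * k : G) : G ⧸ H) = f L
  core_disj : ∀ i < L, ∀ k ∈ K, ((y * k : G) : G ⧸ H) ≠ f i
  harm : 4 * harm H S r K (vs H L f) y ≤ (sat H K).card * (S ^ r).card

/-- extension of a path by a shortest walk -/
lemma extend (hS : Sys H S) {L : ℕ} {f : ℕ → G} (hf : PathF H S L f) {m : ℕ} {p : ℕ → G}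
    (h0 : (p 0 : G ⧸ H) = f L) (hps : ∀ i < m, (p i)⁻¹ * p (i + 1) ∈ S)
    (hpd : ∀ i ≤ m, 1 ≤ i → (p i : G ⧸ H) ∉ vs H L f)
    (hpi : ∀ i ≤ m, ∀ j ≤ m, (p i : G ⧸ H) = p j → i = j) :
    PathF H S (L + m) (fun i => if i ≤ L then f i else p (i - L)) := by
  constructor
  · intro i hi j hj h
    by_cases h1 : i ≤ L <;> by_cases h2 : j ≤ L
    · simp only [h1, h2, if_true] at h
      exact hf.inj i h1 j h2 h
    · simp only [h1, h2, if_true, if_false] at h
      exact absurd (mem_vs.2 ⟨i, h1, h⟩) (hpd _ (by omega) (by omega))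
    · simp only [h1, h2, if_true, if_false] at h
      exact absurd (mem_vs.2 ⟨j, h2, h.symm⟩) (hpd _ (by omega) (by omega))
    · simp only [h1, h2, if_false] at h
      have := hpi _ (by omega) _ (by omega) h
      omega
  · intro i hi
    rcases lt_trichotomy i L with h | h | h
    · simp only [h.le, if_true, show i + 1 ≤ L from h]
      exact hf.step i h
    · subst h
      simp only [le_refl, if_true, show ¬ (i + 1 ≤ i) by omega, if_false]
      rw [show i + 1 - i = 0 + 1 by omega]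
      rw [eq_comm, QuotientGroup.eq] at h0
      have h4 : (f i)⁻¹ * p (0 + 1) = (f i)⁻¹ * p 0 * ((p 0)⁻¹ * p (0 + 1)) := by group
      rw [h4]
      exact hS.left _ h0 _ (hps 0 (by omega))
    · simp only [show ¬ (i ≤ L) by omega, show ¬ (i + 1 ≤ L) by omega, if_false]
      rw [show i + 1 - L = (i - L) + 1 by omega]
      exact hps _ (by omega)

open Classical in
/-- The vertices of the path near `c`. -/
lemma near_mem (hS : Sys H S) {L : ℕ} {f : ℕ → G} {c : G} {ρ : ℕ} (hρ : 1 ≤ ρ) {x : G}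
    (hx : c⁻¹ * x ∈ S ^ ρ) (hv : (x : G ⧸ H) ∈ vs H L f) :
    (x : G ⧸ H) ∈ ((range (L + 1)).filter fun i => c⁻¹ * f i ∈ S ^ ρ).image
      fun i => (f i : G ⧸ H) := by
  obtain ⟨i, hi, h⟩ := mem_vs.1 hv
  rw [mem_image]
  refine ⟨i, ?_, h⟩
  rw [mem_filter, mem_range]
  refine ⟨by omega, ?_⟩
  rw [eq_comm, QuotientGroup.eq] at h
  have := hS.right_pow hρ hx h
  rwa [mul_assoc, mul_inv_cancel_left] at this

/-- **One step.** -/
theorem hop (hS : Sys H S) {r τ : ℕ} (hr : 1 ≤ r) {K : Finset G} (hK : Core H S r K)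
    (hs : 120 * r * (r + 1) ≤ K.card)
    (hN1 : Nat.card H * ((τ + K.card) * K.card + 8 * (r + 1) * τ) < (S ^ r).card)
    (hN2 : 2 * ((11 * r + 1) * (S ^ (11 * r)).card * (Nat.card H * τ)) < (S ^ r).card ^ 2)
    {L : ℕ} {f : ℕ → G} {y : G} (hst : State H S r K L f y) {c c' : G} (hc : c⁻¹ * y ∈ S ^ r)
    (hcc : c⁻¹ * c' ∈ S ^ (5 * r))
    (hnear : ((range (L + 1)).filter fun i => c⁻¹ * f i ∈ S ^ (14 * r)).card ≤ τ) :
    ∃ (L' : ℕ) (f' : ℕ → G) (y' : G), State H S r K L' f' y' ∧ L < L' ∧ L' ≤ L + 15 * r ∧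
      (∀ i ≤ L, f' i = f i) ∧ (∀ i, L < i → i ≤ L' → c⁻¹ * f' i ∈ S ^ (14 * r)) ∧
      c'⁻¹ * y' ∈ S ^ r := by
  classical
  set Z := vs H L f with hZ
  set Pn := ((range (L + 1)).filter fun i => c⁻¹ * f i ∈ S ^ (14 * r)).image
      fun i => (f i : G ⧸ H) with hPn
  have hPnc : Pn.card ≤ τ := card_image_le.trans hnear
  have hne : (sat H K).Nonempty := ⟨1, subset_sat hK.one⟩
  have near14 : ∀ x : G, c⁻¹ * x ∈ S ^ (14 * r) → (x : G ⧸ H) ∈ Z → (x : G ⧸ H) ∈ Pn :=
    fun x hx hv => near_mem hS (by omega) hx hv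
  -- the fresh core
  obtain ⟨y', hy'1, hy'2, hy'3⟩ := exists_fresh hS hr hK (c' := c') (Z := Z) (Pn := Pn)
    (F := K.image fun k => ((y * k : G) : G ⧸ H)) hPnc card_image_le
    (fun x hx hv => near14 x (by
      have : c⁻¹ * x = (c⁻¹ * c') * (c'⁻¹ * x) := by group
      rw [this]
      exact hS.pow_mono (by omega) (Sys.mul_pow hcc hx)) hv) hN1
  -- leaving the old core, arriving at the new one
  obtain ⟨k, hk, A, hA1, hA2⟩ := exists_spread hS hne hst.harm
  obtain ⟨k', hk', B, hB1, hB2⟩ := exists_spread hS hne hy'3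
  have hkr := sat_sub hS hr hK hk
  have hkr' := sat_sub hS hr hK hk'
  have hAc : ∀ a ∈ A, c⁻¹ * a ∈ S ^ (3 * r) := by
    intro a ha
    have : c⁻¹ * a = (c⁻¹ * y) * k * ((y * k)⁻¹ * a) := by group
    rw [this]
    exact hS.pow_mono (by omega) (Sys.mul_pow (Sys.mul_pow hc hkr) (hA2 a ha).1)
  have hBc : ∀ b ∈ B, c'⁻¹ * b ∈ S ^ (3 * r) := by
    intro b hb
    have : c'⁻¹ * b = (c'⁻¹ * y') * k' * ((y' * k')⁻¹ * b) := by group
    rw [this]
    exact hS.pow_mono (by omega) (Sys.mul_pow (Sys.mul_pow hy'1 hkr') (hB2 b hb).1)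
  obtain ⟨a, ha, b, hb, hab⟩ := exists_pair hS (ρ := 11 * r) (τ := τ) (A := A) (B := B) (Z := Z)
    (Pn := Pn) hPnc
    (by
      intro a ha b hb
      have : a⁻¹ * b = (c⁻¹ * a)⁻¹ * (c⁻¹ * c') * (c'⁻¹ * b) := by group
      rw [this]
      exact hS.pow_mono (by omega)
        (Sys.mul_pow (Sys.mul_pow (hS.inv_pow (hAc a ha)) hcc) (hBc b hb)))
    (by
      intro a ha u hu h
      refine near14 _ ?_ h
      have : c⁻¹ * (a * u) = (c⁻¹ * a) * u := by group
      rw [this]
      exact hS.pow_mono (by omega) (Sys.mul_pow (hAc a ha) hu))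
    (by nlinarith)
  -- the walk
  obtain ⟨k0, hk0, hk0f⟩ := hst.core_mem
  set U : Set G := {x | ((x : G ⧸ H) ∉ Z ∨ (x : G ⧸ H) = f L) ∧ c⁻¹ * x ∈ S ^ (14 * r)} with hU
  have hcoreU : ∀ u ∈ (sat H K : Set G), y * u ∈ U := by
    intro u hu
    obtain ⟨u0, hu0, hu0u⟩ := mem_sat.1 (mem_coe.1 hu)
    have hyu : ((y * u0 : G) : G ⧸ H) = ((y * u : G) : G ⧸ H) := by
      rw [QuotientGroup.eq] at hu0u ⊢
      have : (y * u0)⁻¹ * (y * u) = u0⁻¹ * u := by group
      rwa [this]
    refine ⟨?_, ?_⟩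
    · by_cases h : ((y * u : G) : G ⧸ H) ∈ Z
      · right
        obtain ⟨i, hi, hi2⟩ := mem_vs.1 h
        rcases lt_or_eq_of_le hi with h3 | h3
        · exact absurd (hyu.trans hi2.symm) (hst.core_disj i h3 u0 hu0)
        · rw [← hi2, h3]
      · exact Or.inl h
    · have : c⁻¹ * (y * u) = (c⁻¹ * y) * u := by group
      rw [this]
      exact hS.pow_mono (by omega) (Sys.mul_pow hc (sat_sub hS hr hK (mem_coe.1 hu)))
  have w1 : Conn S U r (y * k0) y := by
    have := (sat_conn hS hr hK (subset_sat hk0)).translate y hcoreU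
    rw [mul_one] at this
    exact this.symm hS
  have w2 : Conn S U r y (y * k) := by
    have := (sat_conn hS hr hK hk).translate y hcoreU
    rwa [mul_one] at this
  have w3 : Conn S U r (y * k) a := by
    refine (hA2 a ha).2.mono ?_
    rintro x ⟨hx1, hx2⟩
    refine ⟨Or.inl hx1, ?_⟩
    have : c⁻¹ * x = (c⁻¹ * y) * k * ((y * k)⁻¹ * x) := by group
    rw [this]
    exact hS.pow_mono (by omega) (Sys.mul_pow (Sys.mul_pow hc hkr) hx2)
  have w4 : Conn S U (11 * r) a b := by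
    refine hab.mono ?_
    rintro x ⟨hx1, hx2⟩
    refine ⟨Or.inl hx1, ?_⟩
    have : c⁻¹ * x = (c⁻¹ * a) * (a⁻¹ * x) := by group
    rw [this]
    exact hS.pow_mono (by omega) (Sys.mul_pow (hAc a ha) hx2)
  have w5 : Conn S U r b (y' * k') := by
    refine ((hB2 b hb).2.symm hS).mono ?_
    rintro x ⟨hx1, hx2⟩
    refine ⟨Or.inl hx1, ?_⟩
    have : c⁻¹ * x = (c⁻¹ * c') * (c'⁻¹ * y') * k' * ((y' * k')⁻¹ * x) := by group
    rw [this]
    exact hS.pow_mono (by omega) (Sys.mul_pow (Sys.mul_pow (Sys.mul_pow hcc hy'1) hkr') hx2)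
  have w := (((w1.trans w2).trans w3).trans w4).trans w5
  set T : Set G := {x | ∃ k ∈ K, ((y' * k : G) : G ⧸ H) = x} with hT
  have hbT : y' * k' ∈ T := by
    obtain ⟨u0, hu0, hu0u⟩ := mem_sat.1 hk'
    refine ⟨u0, hu0, ?_⟩
    rw [QuotientGroup.eq] at hu0u ⊢
    have : (y' * u0)⁻¹ * (y' * k') = u0⁻¹ * k' := by group
    rwa [this]
  have hxT : y * k0 ∉ T := by
    rintro ⟨u, hu, h⟩
    apply (hy'2 u hu).2
    rw [mem_image]
    exact ⟨k0, hk0, h.symm⟩
  obtain ⟨m, hm1, hm2, p, p0, ps, pU, pT, pT', pinj⟩ := min_walk hS (T := T) (by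
    rintro x ⟨u, hu, h⟩ h' hh'
    refine ⟨u, hu, ?_⟩
    rw [h, QuotientGroup.eq]
    simpa using hh') w hbT hxT
  have hpL : (p 0 : G ⧸ H) = f L := by rw [p0, hk0f]
  have hpd : ∀ i ≤ m, 1 ≤ i → (p i : G ⧸ H) ∉ vs H L f := by
    intro i hi h1 h
    rcases (pU i hi).1 with h2 | h2
    · exact h2 h
    · have := pinj i hi 0 (Nat.zero_le _) (h2.trans hpL.symm)
      omega
  refine ⟨L + m, fun i => if i ≤ L then f i else p (i - L), y', ⟨?_, ?_, ?_, ?_⟩, by omega, by omega,
    fun i hi => by simp [hi], ?_, hy'1⟩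
  · exact extend hS hst.path hpL ps hpd pinj
  · obtain ⟨u, hu, h⟩ := pT
    refine ⟨u, hu, ?_⟩
    simp only [show ¬ (L + m ≤ L) by omega, if_false]
    rw [h, show L + m - L = m by omega]
  · intro i hi u hu h
    by_cases h1 : i ≤ L
    · simp only [h1, if_true] at h
      exact (hy'2 u hu).1 (mem_vs.2 ⟨i, h1, h.symm⟩)
    · simp only [h1, if_false] at h
      exact pT' (i - L) (by omega) ⟨u, hu, h⟩
  · have h1 := harm_union (S := S) r K
      (vs H (L + m) (fun i => if i ≤ L then f i else p (i - L))) Z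
      ((Icc 1 m).image fun i => (p i : G ⧸ H)) (by
        intro q hq
        obtain ⟨i, hi, h⟩ := mem_vs.1 hq
        by_cases h1 : i ≤ L
        · simp only [h1, if_true] at h
          exact Or.inl (mem_vs.2 ⟨i, h1, h⟩)
        · simp only [h1, if_false] at h
          right
          rw [mem_image]
          exact ⟨i - L, by rw [mem_Icc]; omega, h⟩) y'
    have h2 := harm_le hS r K ((Icc 1 m).image fun i => (p i : G ⧸ H)) y'
    have h3 : ((Icc 1 m).image fun i => (p i : G ⧸ H)).card ≤ 15 * r := by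
      refine card_image_le.trans ?_
      rw [Nat.card_Icc]
      omega
    have h4 : 8 * harm H S r K ((Icc 1 m).image fun i => (p i : G ⧸ H)) y' ≤
        (sat H K).card * (S ^ r).card := by
      rw [card_sat hK]
      calc _ ≤ 8 * ((r + 1) * (S ^ r).card * (Nat.card H * (15 * r))) := by
            refine Nat.mul_le_mul_left _ (h2.trans ?_)
            gcongr
        _ = Nat.card H * (120 * r * (r + 1)) * (S ^ r).card := by ring
        _ ≤ _ := by gcongr
    omega
  · intro i hi1 hi2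
    simp only [show ¬ (i ≤ L) by omega, if_false]
    exact (pU (i - L) (by omega)).2

end Pool.Agent.N533.LC
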