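import Mathlib

/-!
# Choice of the scale
-/

set_option autoImplicit false

namespace Pool.Agent.N533.LC

open Real

/-- `M`, the least integer with `a ≤ M * b`, is at most `2 a / b` if `b ≤ a`. -/
lemma exists_ratio {a b : ℕ} (hb : 1 ≤ b) (hab : b ≤ a) :
    ∃ M : ℕ, 1 ≤ M ∧ a ≤ M * b ∧ M * b ≤ 2 * a := by
  have h1 := Nat.lt_div_mul_add (a := a) (b := b) (by omega)
  have h2 := Nat.div_mul_le_self a b
  refine ⟨a / b + 1, Nat.le_add_left 1 _, ?_, ?_⟩
  · rw [add_mul]; omega
  · rw [add_mul]; omega

lemma scale (v : ℕ → ℕ) (hmono : Monotone v) (N : ℕ) (hvN : ∀ r, v r ≤ N) {r0 : ℕ} (hr0 : 1 ≤ r0)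
    (hK : 10 ^ 40 * r0 ^ 5 ≤ v r0) :
    ∃ r M m : ℕ, r0 ≤ r ∧ 1 ≤ M ∧ 2 ≤ m ∧ v (45 * r) ≤ M * v r ∧
      400000 * r ^ 4 * m * M ^ 3 ≤ v r ∧
      ((M * v r : ℕ) : ℝ) ≤ m * (r0 ^ 4 * exp (600 * √(log N))) := by
  have hN40 : (10 : ℝ) ^ 40 ≤ N := by
    have h1 : 10 ^ 40 ≤ 10 ^ 40 * r0 ^ 5 := Nat.le_mul_of_pos_right _ (by positivity)
    have h2 := (h1.trans hK).trans (hvN r0)
    exact_mod_cast h2
  set s := √(log N) with hs
  have hlog : (81 : ℝ) ≤ log N := by
    have h1 : log ((10 : ℝ) ^ 40) ≤ log N := log_le_log (by positivity) hN40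
    rw [log_pow] at h1
    have h2 : (2.2 : ℝ) ≤ log 10 := by
      have h3 : log 10 = log 2 + log 5 := by rw [← log_mul (by norm_num) (by norm_num)]; norm_num
      have h4 : (1.6 : ℝ) ≤ log 5 := by
        rw [le_log_iff_exp_le (by norm_num)]
        have h5 : exp 1.6 = (exp 0.4) ^ 4 := by rw [← exp_nat_mul]; norm_num
        have h6 : exp 0.4 ≤ 1.4919 := by
          have := Real.exp_bound' (x := 0.4) (by norm_num) (by norm_num) (n := 6) (by norm_num)
          refine this.trans ?_
          norm_num [Finset.sum_range_succ, Nat.factorial]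
        rw [h5]
        calc (exp 0.4) ^ 4 ≤ (1.4919 : ℝ) ^ 4 := by gcongr
          _ ≤ 5 := by norm_num
      have h7 := log_two_gt_d9
      rw [h3]
      linarith
    norm_num at h1
    linarith
  have hs9 : (9 : ℝ) ≤ s := by
    rw [hs]
    apply le_sqrt_of_sq_le
    linarith
  have hss : s * s = log N := mul_self_sqrt (by linarith)
  set x : ℕ → ℝ := fun j => log (v (45 ^ j * r0)) with hx
  set Φ : ℝ → ℝ := fun t => t / (3 * s) + 16 * log t with hΦ
  -- bounds
  have hv1 : ∀ j, (10 : ℝ) ^ 40 ≤ v (45 ^ j * r0) := by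
    intro j
    have h1 : r0 ≤ 45 ^ j * r0 := Nat.le_mul_of_pos_left _ (by positivity)
    have h2 := hmono h1
    have h3 : 10 ^ 40 ≤ 10 ^ 40 * r0 ^ 5 := Nat.le_mul_of_pos_right _ (by positivity)
    exact_mod_cast (h3.trans hK).trans h2
  have hx1 : ∀ j, 1 ≤ x j := by
    intro j
    rw [hx]
    simp only
    rw [le_log_iff_exp_le (by have := hv1 j; linarith [show (0:ℝ) < 10 ^ 40 by positivity])]
    have h1 := exp_one_lt_d9
    have h2 := hv1 j
    have h3 : (3 : ℝ) ≤ 10 ^ 40 := by norm_num
    linarith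
  have hxN : ∀ j, x j ≤ s * s := by
    intro j
    rw [hss, hx]
    simp only
    apply log_le_log
    · have h2 := hv1 j
      linarith [show (0:ℝ) < 10 ^ 40 by positivity]
    · exact_mod_cast hvN _
  have hΦN : ∀ j, Φ (x j) ≤ 33 * s - 1 := by
    intro j
    have h0 := hx1 j
    have h1 : x j / (3 * s) ≤ s / 3 := by
      rw [div_le_div_iff₀ (by positivity) (by norm_num)]
      nlinarith [hxN j]
    have h2 : log (x j) ≤ 2 * (s - 1) := by
      calc log (x j) ≤ log (s * s) := log_le_log (by linarith) (hxN j)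
        _ = 2 * log s := by rw [log_mul (by positivity) (by positivity)]; ring
        _ ≤ 2 * (s - 1) := by
          have := log_le_sub_one_of_pos (show 0 < s by linarith)
          linarith
    simp only [hΦ]
    linarith
  -- the good scale
  have hgood : ∃ j : ℕ, (j : ℝ) ≤ 33 * s ∧ ∃ M : ℕ, 1 ≤ M ∧
      v (45 * (45 ^ j * r0)) ≤ M * v (45 ^ j * r0) ∧ (M : ℝ) ≤ 2 * exp (3 * s) ∧
      800000 * (45 ^ j * r0) ^ 4 * M ^ 3 ≤ v (45 ^ j * r0) := by
    by_contra hcon
    push Not at hcon
    have key : ∀ j : ℕ, (j : ℝ) ≤ 33 * s + 1 →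
        ((10 : ℝ) ^ 40 * ((45 ^ j * r0 : ℕ) : ℝ) ^ 5 ≤ v (45 ^ j * r0) ∧ (j : ℝ) ≤ Φ (x j)) := by
      intro j
      induction j with
      | zero =>
        intro _
        constructor
        · rw [pow_zero, one_mul]
          exact_mod_cast hK
        · have h0 := hx1 0
          simp only [hΦ, Nat.cast_zero]
          have h1 : 0 ≤ x 0 / (3 * s) := by positivity
          have h2 : 0 ≤ log (x 0) := log_nonneg h0
          linarith
      | succ j ih =>
        intro hj
        push_cast at hj
        obtain ⟨i1, i2⟩ := ih (by linarith)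
        set r := 45 ^ j * r0 with hr
        have hr1 : 1 ≤ r := Nat.one_le_iff_ne_zero.2 (by positivity)
        have hr1' : (1 : ℝ) ≤ r := by exact_mod_cast hr1
        have e45 : 45 ^ (j + 1) * r0 = 45 * r := by rw [hr]; ring
        have hb1 : 1 ≤ v r := by
          have h1 := hv1 j
          rw [← hr] at h1
          have h2 : (1 : ℝ) ≤ v r := le_trans (by norm_num) h1
          exact_mod_cast h2
        obtain ⟨M, hM1, hM2, hM3⟩ := exists_ratio hb1 (hmono (by omega : r ≤ 45 * r))
        have hbad := hcon j (by linarith) M hM1 (by rw [← hr]; exact hM2)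
        rw [← hr] at hbad
        set a : ℝ := ((v r : ℕ) : ℝ) with ha
        set b : ℝ := ((v (45 * r) : ℕ) : ℝ) with hb
        set R : ℝ := ((r : ℕ) : ℝ) with hR
        have ha0 : (10 : ℝ) ^ 40 ≤ a := by have := hv1 j; rwa [← hr] at this
        have hapos : 0 < a := lt_of_lt_of_le (by positivity) ha0
        have hab : a ≤ b := by
          rw [ha, hb]; exact_mod_cast hmono (by omega : r ≤ 45 * r)
        have hbpos : 0 < b := by linarith
        have hMr : (M : ℝ) * a ≤ 2 * b := by rw [ha, hb]; exact_mod_cast hM3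
        have hxj : x j = log a := by rw [hx]
        have hxj1 : x (j + 1) = log b := by rw [hx, hb]; simp only [e45]
        rw [e45, hxj1]
        have hla : 1 ≤ log a := by rw [← hxj]; exact hx1 j
        have hlab : log a ≤ log b := log_le_log hapos hab
        rw [hxj] at i2
        have hcast : (((45 * r : ℕ) : ℝ)) = 45 * R := by rw [hR]; push_cast; ring
        rw [hcast]
        push_cast
        by_cases hM : (M : ℝ) ≤ 2 * exp (3 * s)
        · -- the second case
          have h1 := hbad hM
          have h2 : a < 800000 * R ^ 4 * (M : ℝ) ^ 3 := by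
            rw [ha, hR]; exact_mod_cast h1
          have h3 : a ^ 4 ≤ 6400000 * R ^ 4 * b ^ 3 := by
            calc a ^ 4 = a * a ^ 3 := by ring
              _ ≤ (800000 * R ^ 4 * (M : ℝ) ^ 3) * a ^ 3 := by gcongr
              _ = 800000 * R ^ 4 * (M * a) ^ 3 := by ring
              _ ≤ 800000 * R ^ 4 * (2 * b) ^ 3 := by gcongr
              _ = _ := by ring
          have h4 : (10 : ℝ) ^ 40 * R ^ 5 ≤ a := i1
          constructor
          · -- invariant
            by_contra hc
            push Not at hc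
            have h5 : b ^ 3 < ((10 : ℝ) ^ 40 * (45 * R) ^ 5) ^ 3 := by gcongr
            have h6 : ((10 : ℝ) ^ 40 * R ^ 5) ^ 4 ≤ a ^ 4 := by gcongr
            have h7 : ((10 : ℝ) ^ 40 * R ^ 5) ^ 4 <
                6400000 * R ^ 4 * ((10 : ℝ) ^ 40 * (45 * R) ^ 5) ^ 3 := by
              refine (h6.trans h3).trans_lt ?_
              gcongr
            have h8 : 6400000 * R ^ 4 * ((10 : ℝ) ^ 40 * (45 * R) ^ 5) ^ 3 =
                (6400000 * (10 : ℝ) ^ 120 * 45 ^ 15) * R ^ 19 := by ring
            have h9 : ((10 : ℝ) ^ 40 * R ^ 5) ^ 4 = (10 : ℝ) ^ 160 * (R ^ 19 * R) := by ring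
            rw [h8, h9] at h7
            have h10 : (6400000 * (10 : ℝ) ^ 120 * 45 ^ 15) * R ^ 19 ≤
                (10 : ℝ) ^ 160 * (R ^ 19 * R) := by
              have h11 : (6400000 * (10 : ℝ) ^ 120 * 45 ^ 15) ≤ (10 : ℝ) ^ 160 := by norm_num
              have h12 : R ^ 19 ≤ R ^ 19 * R := le_mul_of_one_le_right (by positivity) hr1'
              gcongr
            linarith
          · -- potential
            have h5 : a ^ 16 ≤ b ^ 15 := by
              have h6 : (a ^ 4) ^ 5 ≤ (6400000 * R ^ 4 * b ^ 3) ^ 5 := by gcongr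
              have h7 : (10 : ℝ) ^ 160 * R ^ 20 ≤ a ^ 4 := by
                calc (10 : ℝ) ^ 160 * R ^ 20 = ((10 : ℝ) ^ 40 * R ^ 5) ^ 4 := by ring
                  _ ≤ _ := by gcongr
              have h8 : a ^ 20 ≤ (6400000 : ℝ) ^ 5 * R ^ 20 * b ^ 15 := by
                calc a ^ 20 = (a ^ 4) ^ 5 := by ring
                  _ ≤ _ := h6
                  _ = _ := by ring
              have h9 : (6400000 : ℝ) ^ 5 * R ^ 20 ≤ a ^ 4 := by
                refine le_trans ?_ h7
                gcongr
                norm_num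
              have h10 : a ^ 4 * a ^ 16 ≤ a ^ 4 * b ^ 15 := by
                calc a ^ 4 * a ^ 16 = a ^ 20 := by ring
                  _ ≤ _ := h8
                  _ ≤ a ^ 4 * b ^ 15 := by gcongr
              exact le_of_mul_le_mul_left h10 (by positivity)
            have h6 : 16 * log a ≤ 15 * log b := by
              have := log_le_log (by positivity) h5
              rw [log_pow, log_pow] at this
              exact_mod_cast this
            have h7 : log (log a) + 1 / 16 ≤ log (log b) := by
              have h8 : log a * (16 / 15) ≤ log b := by linarith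
              have h9 : log (log a * (16 / 15)) ≤ log (log b) := log_le_log (by positivity) h8
              rw [log_mul (by positivity) (by norm_num)] at h9
              have h10 : (1 / 16 : ℝ) ≤ log (16 / 15) := by
                have := one_sub_inv_le_log_of_pos (show (0:ℝ) < 16 / 15 by norm_num)
                norm_num at this ⊢
                linarith
              linarith
            have h8 : log a / (3 * s) ≤ log b / (3 * s) := by gcongr
            simp only [hΦ] at i2 ⊢
            linarith
        · -- the first case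
          push Not at hM
          have h1 : exp (3 * s) * a ≤ b := by nlinarith
          constructor
          · have h2 : (45 : ℝ) ^ 5 ≤ exp (3 * s) := by
              have h3 : exp (3 * 9) ≤ exp (3 * s) := exp_le_exp.2 (by linarith)
              have h4 : (2.7 : ℝ) ≤ exp 1 := by
                have := exp_one_gt_d9
                linarith
              have h5 : exp (3 * 9) = (exp 1) ^ 27 := by rw [← exp_nat_mul]; norm_num
              rw [h5] at h3
              refine le_trans ?_ h3
              calc (45 : ℝ) ^ 5 ≤ (2.7 : ℝ) ^ 27 := by norm_num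
                _ ≤ _ := by gcongr
            calc (10 : ℝ) ^ 40 * (45 * R) ^ 5 = 45 ^ 5 * ((10 : ℝ) ^ 40 * R ^ 5) := by ring
              _ ≤ exp (3 * s) * a := by gcongr
              _ ≤ _ := h1
          · have h2 : 3 * s + log a ≤ log b := by
              have := log_le_log (by positivity) h1
              rwa [log_mul (exp_pos _).ne' hapos.ne', log_exp] at this
            have h3 : log (log a) ≤ log (log b) := log_le_log (by positivity) hlab
            have h4 : log a / (3 * s) + 1 ≤ log b / (3 * s) := by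
              rw [div_add_one (by positivity)]
              gcongr
              linarith
            simp only [hΦ] at i2 ⊢
            linarith
    obtain ⟨-, h1⟩ := key (⌊33 * s⌋₊ + 1) (by
      push_cast
      have := Nat.floor_le (show 0 ≤ 33 * s by positivity)
      linarith)
    have h2 := hΦN (⌊33 * s⌋₊ + 1)
    have h3 := Nat.lt_floor_add_one (33 * s)
    push_cast at h1
    linarith
  obtain ⟨j, hj, M, hM1, hM2, hM3, hM4⟩ := hgood
  set r := 45 ^ j * r0 with hr
  have hr1 : 1 ≤ r := Nat.one_le_iff_ne_zero.2 (by positivity)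
  set D := 400000 * r ^ 4 * M ^ 3 with hD
  have hD1 : 1 ≤ D := Nat.one_le_iff_ne_zero.2 (by positivity)
  have hD2 : 2 * D ≤ v r := by
    refine le_trans (le_of_eq ?_) hM4
    rw [hD]; ring
  refine ⟨r, M, v r / D, ?_, hM1, ?_, hM2, ?_, ?_⟩
  · exact Nat.le_mul_of_pos_left _ (by positivity)
  · rw [Nat.le_div_iff_mul_le (by omega)]
    exact hD2
  · calc 400000 * r ^ 4 * (v r / D) * M ^ 3 = D * (v r / D) := by rw [hD]; ring
      _ ≤ v r := Nat.mul_div_le _ _
  · have h1 : v r ≤ 2 * (v r / D) * D := by
      have h2 := Nat.lt_div_mul_add (a := v r) (b := D) (by omega)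
      have h3 : 2 ≤ v r / D := by
        rw [Nat.le_div_iff_mul_le (by omega)]
        exact hD2
      nlinarith
    have h2 : ((v r : ℕ) : ℝ) ≤ 2 * ((v r / D : ℕ) : ℝ) * (D : ℝ) := by exact_mod_cast h1
    have h3 : (r : ℝ) ≤ exp (126 * s) * r0 := by
      rw [hr]
      push_cast
      gcongr
      have h4 : (45 : ℝ) ≤ exp (3.81) := by
        have h5 : exp 3.81 = (exp 0.381) ^ 10 := by rw [← exp_nat_mul]; norm_num
        have h6 : (1.4637 : ℝ) ≤ exp 0.381 := by
          have h7 := Real.sum_le_exp_of_nonneg (x := 0.381) (by norm_num) 6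
          refine le_trans ?_ h7
          norm_num [Finset.sum_range_succ, Nat.factorial]
        rw [h5]
        calc (45 : ℝ) ≤ (1.4637 : ℝ) ^ 10 := by norm_num
          _ ≤ _ := by gcongr
      calc (45 : ℝ) ^ j ≤ (exp 3.81) ^ j := by gcongr
        _ = exp (j * 3.81) := by rw [← exp_nat_mul]
        _ ≤ exp (126 * s) := by
          apply exp_le_exp.2
          nlinarith
    have hDr : (D : ℝ) = 400000 * (r : ℝ) ^ 4 * (M : ℝ) ^ 3 := by rw [hD]; push_cast; ring
    have h4 : (2 : ℝ) * M * D ≤ r0 ^ 4 * exp (600 * s) := by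
      rw [hDr]
      calc (2 : ℝ) * M * (400000 * (r : ℝ) ^ 4 * (M : ℝ) ^ 3) =
            800000 * (r : ℝ) ^ 4 * (M : ℝ) ^ 4 := by ring
        _ ≤ 800000 * (exp (126 * s) * r0) ^ 4 * (2 * exp (3 * s)) ^ 4 := by gcongr
        _ = 12800000 * (r0 ^ 4 * (exp (126 * s) ^ 4 * exp (3 * s) ^ 4)) := by ring
        _ = 12800000 * (r0 ^ 4 * exp (516 * s)) := by
          rw [← exp_nat_mul, ← exp_nat_mul, ← exp_add]
          congr 3
          push_cast
          ring
        _ ≤ exp (84 * s) * (r0 ^ 4 * exp (516 * s)) := by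
          gcongr
          have h5 : exp (84 * 9) ≤ exp (84 * s) := exp_le_exp.2 (by linarith)
          refine le_trans ?_ h5
          have h6 : exp (84 * 9) = (exp 1) ^ 756 := by rw [← exp_nat_mul]; norm_num
          have h7 : (2.7 : ℝ) ≤ exp 1 := by
            have := exp_one_gt_d9
            linarith
          rw [h6]
          calc (12800000 : ℝ) ≤ (2.7 : ℝ) ^ 20 := by norm_num
            _ ≤ (2.7 : ℝ) ^ 756 := by gcongr <;> norm_num
            _ ≤ _ := by gcongr
        _ = r0 ^ 4 * (exp (84 * s) * exp (516 * s)) := by ring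
        _ = r0 ^ 4 * exp (600 * s) := by rw [← exp_add]; congr 2; ring
    push_cast
    calc (M : ℝ) * (v r : ℝ) ≤ M * (2 * ((v r / D : ℕ) : ℝ) * D) := by gcongr
      _ = ((v r / D : ℕ) : ℝ) * (2 * M * D) := by ring
      _ ≤ ((v r / D : ℕ) : ℝ) * (r0 ^ 4 * exp (600 * s)) := by gcongr
      _ = _ := by ring

end Pool.Agent.N533.LC
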