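import Pool.Agent.N533.LC.Quant
import Pool.Agent.N533.LC.Scale

/-!
# Long cycles in coset graphs
-/

set_option autoImplicit false
set_option linter.unusedSectionVars false

open Finset Real
open scoped Pointwise

namespace Pool.Agent.N533.LC

variable {G : Type*} [Group G] [Fintype G] [DecidableEq G]
variable {H : Subgroup G} {S : Finset G}

lemma Nv_mono (hS : Sys H S) : Monotone (Nv H S) := by
  classical
  intro a b hab
  unfold Nv
  apply card_le_card
  exact image_subset_image (hS.pow_mono hab)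

lemma Nv_le (r : ℕ) : Nv H S r ≤ Nat.card (G ⧸ H) := by
  classical
  unfold Nv
  rw [Nat.card_eq_fintype_card]
  exact card_le_univ _

/-- **Long cycles in coset graphs.** -/
theorem main_bound (hS : Sys H S) (hgen : Subgroup.closure (S : Set G) = ⊤) {r0 : ℕ}
    (hr0 : 1 ≤ r0) (hK : 10 ^ 40 * r0 ^ 5 ≤ Nv H S r0) :
    ∃ (n : ℕ) (g : ℕ → G), CycF H S n g ∧
      (Nat.card (G ⧸ H) : ℝ) ≤ n * (r0 ^ 4 * exp (600 * √(log (Nat.card (G ⧸ H))))) := by
  obtain ⟨r, M, m, hr, hM, hm, h1, h2, h3⟩ :=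
    scale (Nv H S) (Nv_mono hS) (Nat.card (G ⧸ H)) Nv_le hr0 hK
  have hr1 : 1 ≤ r := hr0.trans hr
  have hpos : 0 < Nat.card H := Nat.card_pos
  obtain ⟨n, g, hg, hn⟩ := quant hS hgen (r := r) (m := m) (M := M) hr1 hm hM
    (by
      rw [card_pow_eq hS hr1, card_pow_eq hS (by omega : 1 ≤ 45 * r)]
      calc Nat.card H * Nv H S (45 * r) ≤ Nat.card H * (M * Nv H S r) := by gcongr
        _ = _ := by ring)
    (by
      rw [card_pow_eq hS hr1]
      gcongr)
  refine ⟨n, g, hg, ?_⟩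
  have h4 : m * Nat.card (G ⧸ H) ≤ n * (M * Nv H S r) := by
    have h5 : (S ^ (2 * r)).card ≤ Nat.card H * (M * Nv H S r) := by
      calc (S ^ (2 * r)).card ≤ (S ^ (45 * r)).card := card_le_card (hS.pow_mono (by omega))
        _ = Nat.card H * Nv H S (45 * r) := card_pow_eq hS (by omega : 1 ≤ 45 * r)
        _ ≤ _ := by gcongr
    have h6 : Fintype.card G = Nat.card H * Nat.card (G ⧸ H) := by
      rw [← Nat.card_eq_fintype_card, Subgroup.card_eq_card_quotient_mul_card_subgroup H]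
      ring
    have h7 : Nat.card H * (m * Nat.card (G ⧸ H)) ≤ Nat.card H * (n * (M * Nv H S r)) := by
      calc Nat.card H * (m * Nat.card (G ⧸ H)) = m * Fintype.card G := by rw [h6]; ring
        _ ≤ n * (S ^ (2 * r)).card := hn
        _ ≤ n * (Nat.card H * (M * Nv H S r)) := by gcongr
        _ = _ := by ring
    exact Nat.le_of_mul_le_mul_left h7 hpos
  have h8 : (m : ℝ) * (Nat.card (G ⧸ H) : ℝ) ≤
      m * (n * (r0 ^ 4 * exp (600 * √(log (Nat.card (G ⧸ H)))))) := by
    calc (m : ℝ) * (Nat.card (G ⧸ H) : ℝ) ≤ n * ((M * Nv H S r : ℕ) : ℝ) := by exact_mod_cast h4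
      _ ≤ n * (m * (r0 ^ 4 * exp (600 * √(log (Nat.card (G ⧸ H)))))) := by gcongr
      _ = _ := by ring
  have hm0 : (0 : ℝ) < m := by
    have : 0 < m := by omega
    exact_mod_cast this
  exact le_of_mul_le_mul_left h8 hm0

end Pool.Agent.N533.LC
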