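import Pool.Agent.N533.LC.Cells

/-!
# Long cycles at a given scale
-/

set_option autoImplicit false
set_option linter.unusedSectionVars false

open Finset
open scoped Pointwise

namespace Pool.Agent.N533.LC

variable {G : Type*} [Group G] [Fintype G] [DecidableEq G]
variable {H : Subgroup G} {S : Finset G}

/-- **Long cycles at a given scale.** -/
theorem quant (hS : Sys H S) (hgen : Subgroup.closure (S : Set G) = ⊤) {r m M : ℕ}
    (hr : 1 ≤ r) (hm : 2 ≤ m) (hM : 1 ≤ M)
    (hdoub : (S ^ (45 * r)).card ≤ M * (S ^ r).card)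
    (hbig : Nat.card H * (400000 * r ^ 4 * m * M ^ 3) ≤ (S ^ r).card) :
    ∃ (n : ℕ) (g : ℕ → G), CycF H S n g ∧ m * Fintype.card G ≤ n * (S ^ (2 * r)).card := by
  classical
  have hpos : 0 < Nat.card H := Nat.card_pos
  have hb : 0 < (S ^ r).card := card_pos.2 ⟨1, hS.one_pow r⟩
  set s := 120 * r * (r + 1) with hs
  set t0 := 20 * r * (22 * r + 1) * (m + 1) * M ^ 2 with ht0
  set τ := t0 + 15 * r + 1 + 15 * r * ((m + 1) * M) with hτ
  -- numerical estimates
  have hrr : 1 ≤ r ^ 2 := Nat.one_le_pow _ _ hr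
  have es : s ≤ 240 * r ^ 2 := by nlinarith
  have hmM : 1 ≤ m * M := Nat.one_le_iff_ne_zero.2 (by positivity)
  have et0 : t0 ≤ 920 * (r ^ 2 * m * M ^ 2) := by
    have h1 : 22 * r + 1 ≤ 23 * r := by omega
    have h2 : m + 1 ≤ 2 * m := by omega
    calc t0 ≤ 20 * r * (23 * r) * (2 * m) * M ^ 2 := by rw [ht0]; gcongr
      _ = _ := by ring
  have eτ : τ ≤ 966 * (r ^ 2 * m * M ^ 2) := by
    have h1 : 15 * r + 1 ≤ 16 * (r ^ 2 * m * M ^ 2) := by
      calc 15 * r + 1 ≤ 16 * (r * 1 * 1 ^ 2) := by omega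
        _ ≤ 16 * (r ^ 2 * m * M ^ 2) := by
          gcongr
          · exact Nat.le_self_pow (by norm_num) r
          · omega
    have h2 : 15 * r * ((m + 1) * M) ≤ 30 * (r ^ 2 * m * M ^ 2) := by
      calc 15 * r * ((m + 1) * M) ≤ 15 * r ^ 2 * ((2 * m) * M ^ 2) := by
            gcongr
            · exact Nat.le_self_pow (by norm_num) r
            · omega
            · exact Nat.le_self_pow (by norm_num) M
        _ = _ := by ring
    rw [hτ]
    omega
  set Q := r ^ 4 * m * M ^ 3 with hQ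
  have hQ1 : 1 ≤ Q := Nat.one_le_iff_ne_zero.2 (by positivity)
  have n1 : (τ + s) * s + 8 * (r + 1) * τ ≤ 304896 * Q := by
    have h0 : r ^ 2 ≤ r ^ 2 * m * M ^ 2 := by
      calc r ^ 2 = r ^ 2 * 1 * 1 ^ 2 := by ring
        _ ≤ _ := by gcongr; omega
    have h1 : τ + s ≤ 1206 * (r ^ 2 * m * M ^ 2) := by omega
    have h2 : (τ + s) * s ≤ 289440 * Q := by
      calc (τ + s) * s ≤ (1206 * (r ^ 2 * m * M ^ 2)) * (240 * r ^ 2) := by gcongr
        _ = 289440 * (r ^ 4 * m * M ^ 2) := by ring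
        _ ≤ 289440 * Q := by
          rw [hQ]
          gcongr
          norm_num
    have h3 : 8 * (r + 1) * τ ≤ 15456 * Q := by
      calc 8 * (r + 1) * τ ≤ 8 * (2 * r ^ 2) * (966 * (r ^ 2 * m * M ^ 2)) := by
            gcongr
            nlinarith
        _ = 15456 * (r ^ 4 * m * M ^ 2) := by ring
        _ ≤ 15456 * Q := by
          rw [hQ]
          gcongr
          norm_num
    omega
  have n2 : 2 * (11 * r + 1) * M * τ ≤ 23184 * Q := by
    calc 2 * (11 * r + 1) * M * τ ≤ 2 * (12 * r ^ 2) * M * (966 * (r ^ 2 * m * M ^ 2)) := by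
          gcongr
          nlinarith
      _ = 23184 * Q := by rw [hQ]; ring
  have hbig' : Nat.card H * (400000 * Q) ≤ (S ^ r).card := by
    calc Nat.card H * (400000 * Q) = Nat.card H * (400000 * r ^ 4 * m * M ^ 3) := by
          rw [hQ]; ring
      _ ≤ _ := hbig
  have hN1 : Nat.card H * ((τ + s) * s + 8 * (r + 1) * τ) < (S ^ r).card := by
    calc Nat.card H * ((τ + s) * s + 8 * (r + 1) * τ) ≤ Nat.card H * (304896 * Q) := by gcongr
      _ < Nat.card H * (400000 * Q) := by
        apply Nat.mul_lt_mul_of_pos_left _ hpos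
        omega
      _ ≤ _ := hbig'
  have hN2 : 2 * ((11 * r + 1) * (S ^ (11 * r)).card * (Nat.card H * τ)) < (S ^ r).card ^ 2 := by
    have h1 : (S ^ (11 * r)).card ≤ M * (S ^ r).card :=
      (card_le_card (hS.pow_mono (by omega))).trans hdoub
    have h2 : Nat.card H * (2 * (11 * r + 1) * M * τ) < (S ^ r).card := by
      calc Nat.card H * (2 * (11 * r + 1) * M * τ) ≤ Nat.card H * (23184 * Q) := by gcongr
        _ < Nat.card H * (400000 * Q) := by
          apply Nat.mul_lt_mul_of_pos_left _ hpos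
          omega
        _ ≤ _ := hbig'
    calc 2 * ((11 * r + 1) * (S ^ (11 * r)).card * (Nat.card H * τ)) ≤
          2 * ((11 * r + 1) * (M * (S ^ r).card) * (Nat.card H * τ)) := by gcongr
      _ = (Nat.card H * (2 * (11 * r + 1) * M * τ)) * (S ^ r).card := by ring
      _ < (S ^ r).card * (S ^ r).card := Nat.mul_lt_mul_of_pos_right h2 hb
      _ = _ := by ring
  -- the core
  have hsN : s ≤ Nv H S r := by
    have h1 := card_pow_eq hS hr
    have h2 : Nat.card H * s < Nat.card H * Nv H S r := by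
      rw [← h1]
      refine lt_of_le_of_lt ?_ hN1
      gcongr
      nlinarith [Nat.zero_le (8 * (r + 1) * τ), Nat.zero_le (τ * s), Nat.zero_le s, hs, hr]
    exact (Nat.lt_of_mul_lt_mul_left h2).le
  obtain ⟨K, hK, hKc⟩ := exists_core hS r s (by rw [hs]; nlinarith) hsN
  have hKs : 120 * r * (r + 1) ≤ K.card := by rw [hKc]
  rw [← hKc] at hN1
  -- the net and the tour
  obtain ⟨X, hX1, hX2⟩ := exists_net hS (2 * r)
  obtain ⟨x0, hx0, -⟩ := hX2 1
  have hXpos : 1 ≤ X.card := card_pos.2 ⟨x0, hx0⟩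
  obtain ⟨Y, hYX, hYc, -, l, h1, h2, h3, -, h5, h6⟩ :=
    exists_tour hS hgen hr (by omega : 1 ≤ m) hX2 hx0 X.card hXpos le_rfl
  have hYe : Y = X := eq_of_subset_of_card_le hYX hYc.ge
  subst hYe
  have hcount : ∀ z : G, l.countP (fun x => z⁻¹ * x ∈ S ^ (39 * r)) ≤ (m + 1) * M := by
    intro z
    refine (h6 z).trans ?_
    gcongr
    have h7 := net_near (R := 44 * r) hS hX1 z
    rw [show 44 * r + r = 45 * r by ring] at h7
    exact Nat.le_of_mul_le_mul_right (h7.trans hdoub) hb
  obtain ⟨cs, rfl⟩ : ∃ cs, l = x0 :: cs := by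
    cases l with
    | nil => simp at h2
    | cons a cs =>
      simp only [List.head?_cons, Option.some.injEq] at h2
      exact ⟨cs, by rw [h2]⟩
  have hlen : 1 ≤ cs.length := by
    simp only [List.length_cons] at h5
    nlinarith
  -- phase zero
  obtain ⟨L0, f0, y0, a1, a2, a3, a4, a5⟩ := phase_zero hS hr hK hKs hN1 hN2 x0 t0
    (by rw [hτ]; omega)
  -- the main phase
  obtain ⟨L, f, y, b1, b2, b3, b4, b5⟩ := run hS hr hK hKs hN1 hN2 L0 cs x0 [] L0 f0 y0 a1 a2
    le_rfl (by intro z; simp) (by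
      intro z
      rw [List.nil_append]
      have h7 := Nat.mul_le_mul_left (15 * r) (hcount z)
      rw [hτ]
      omega) h1
  have hlast : (x0 :: cs).getLast (by simp) = x0 := by
    rw [List.getLast?_eq_getLast_of_ne_nil (by simp)] at h3
    exact Option.some.inj h3
  rw [hlast] at b4
  -- closing up
  obtain ⟨n, g, c1, c2⟩ := close hS hr hK (by omega : L0 < L) (c0 := x0) b1 b4
    (by rw [inv_mul_cancel]; exact hS.one_pow _)
    (by
      intro i hi
      rw [b3 i hi]
      exact a5 i hi)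
    (ρ1 := 15 * r * ((m + 1) * M))
    (by
      refine (b5 x0).trans ?_
      rw [List.nil_append]
      exact Nat.mul_le_mul_left _ (hcount x0))
    (by
      have h7 : (S ^ (22 * r)).card ≤ M * (S ^ r).card :=
        (card_le_card (hS.pow_mono (by omega))).trans hdoub
      calc 4 * ((22 * r + 1) * (S ^ (22 * r)).card * (15 * r * ((m + 1) * M))) ≤
            4 * ((22 * r + 1) * (M * (S ^ r).card) * (15 * r * ((m + 1) * M))) := by gcongr
        _ = 3 * (S ^ r).card * t0 := by rw [ht0]; ring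
        _ ≤ 3 * (S ^ r).card * L0 := by gcongr
        _ < _ := Nat.mul_lt_mul_of_pos_left (by omega) (by positivity))
  refine ⟨n, g, c1, ?_⟩
  have h8 : m * Y.card ≤ n := by
    simp only [List.length_cons] at h5
    omega
  calc m * Fintype.card G ≤ m * (Y.card * (S ^ (2 * r)).card) := by
        gcongr
        exact net_card _ hX2
    _ = (m * Y.card) * (S ^ (2 * r)).card := by ring
    _ ≤ _ := by gcongr

end Pool.Agent.N533.LC
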