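import Pool.Agent.N533.LC.Hop

/-!
# The construction along a sequence of cells, and closing up
-/

set_option autoImplicit false
set_option linter.unusedSectionVars false

open Finset
open scoped Pointwise

namespace Pool.Agent.N533.LC

variable {G : Type*} [Group G] [Fintype G] [DecidableEq G]
variable {H : Subgroup G} {S : Finset G}

lemma state_init (hS : Sys H S) {r : ℕ} {K : Finset G} (hK : Core H S r K)
    (hs : 120 * r * (r + 1) ≤ K.card) (hr : 1 ≤ r) (y : G) :
    State H S r K 0 (fun _ => y) y := by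
  refine ⟨⟨fun i hi j hj _ => by omega, fun i hi => by omega⟩, ⟨1, hK.one, by simp⟩,
    fun i hi => by omega, ?_⟩
  have h1 := harm_le hS r K (vs H 0 (fun _ => y)) y
  have h2 : (vs H 0 (fun _ => y)).card ≤ 1 := by
    classical
    unfold vs
    exact card_image_le
  rw [card_sat hK]
  calc _ ≤ 4 * ((r + 1) * (S ^ r).card * (Nat.card H * (vs H 0 (fun _ => y)).card)) := by
        exact Nat.mul_le_mul_left _ h1
    _ ≤ 4 * ((r + 1) * (S ^ r).card * (Nat.card H * 1)) := by gcongr
    _ = Nat.card H * (4 * (r + 1)) * (S ^ r).card := by ring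
    _ ≤ _ := by
      gcongr
      nlinarith

section params

variable {r τ : ℕ} {K : Finset G}

/-- Many steps in one cell. -/
lemma phase_zero (hS : Sys H S) (hr : 1 ≤ r) (hK : Core H S r K)
    (hs : 120 * r * (r + 1) ≤ K.card)
    (hN1 : Nat.card H * ((τ + K.card) * K.card + 8 * (r + 1) * τ) < (S ^ r).card)
    (hN2 : 2 * ((11 * r + 1) * (S ^ (11 * r)).card * (Nat.card H * τ)) < (S ^ r).card ^ 2)
    (c : G) (t : ℕ) (ht : t + 15 * r + 1 ≤ τ) :
    ∃ (L : ℕ) (f : ℕ → G) (y : G), State H S r K L f y ∧ c⁻¹ * y ∈ S ^ r ∧ t ≤ L ∧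
      L ≤ t + 15 * r ∧ ∀ i ≤ L, c⁻¹ * f i ∈ S ^ (14 * r) := by
  classical
  induction t with
  | zero =>
    refine ⟨0, fun _ => c, c, state_init hS hK hs hr c, ?_, le_rfl, by omega, ?_⟩
    · rw [inv_mul_cancel]; exact hS.one_pow r
    · intro i _
      rw [inv_mul_cancel]; exact hS.one_pow _
  | succ t ih =>
    obtain ⟨L, f, y, h1, h2, h3, h4, h5⟩ := ih (by omega)
    by_cases hL : t + 1 ≤ L
    · exact ⟨L, f, y, h1, h2, hL, by omega, h5⟩
    · obtain ⟨L', f', y', g1, g2, g3, g4, g5, g6⟩ := hop hS hr hK hs hN1 hN2 h1 h2 (c' := c)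
        (by rw [inv_mul_cancel]; exact hS.one_pow _)
        ((card_filter_le _ _).trans (by rw [card_range]; omega))
      refine ⟨L', f', y', g1, g6, by omega, by omega, ?_⟩
      intro i hi
      by_cases hi2 : i ≤ L
      · rw [g4 i hi2]; exact h5 i hi2
      · exact g5 i (by omega) hi

open Classical in
/-- The construction along a list of cells. -/
theorem run (hS : Sys H S) (hr : 1 ≤ r) (hK : Core H S r K)
    (hs : 120 * r * (r + 1) ≤ K.card)
    (hN1 : Nat.card H * ((τ + K.card) * K.card + 8 * (r + 1) * τ) < (S ^ r).card)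
    (hN2 : 2 * ((11 * r + 1) * (S ^ (11 * r)).card * (Nat.card H * τ)) < (S ^ r).card ^ 2)
    (L0 : ℕ) (cs : List G) : ∀ (c : G) (d : List G) (L : ℕ) (f : ℕ → G) (y : G),
    State H S r K L f y → c⁻¹ * y ∈ S ^ r → L0 ≤ L →
    (∀ z : G, ((Ioc L0 L).filter fun i => z⁻¹ * f i ∈ S ^ (25 * r)).card ≤
      15 * r * d.countP fun x => z⁻¹ * x ∈ S ^ (39 * r)) →
    (∀ z : G, L0 + 1 + 15 * r * (d ++ c :: cs).countP (fun x => z⁻¹ * x ∈ S ^ (39 * r)) ≤ τ) →
    (c :: cs).IsChain (fun a b => a⁻¹ * b ∈ S ^ (5 * r)) →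
    ∃ (L' : ℕ) (f' : ℕ → G) (y' : G), State H S r K L' f' y' ∧ L + cs.length ≤ L' ∧
      (∀ i ≤ L, f' i = f i) ∧ ((c :: cs).getLast (by simp))⁻¹ * y' ∈ S ^ r ∧
      ∀ z : G, ((Ioc L0 L').filter fun i => z⁻¹ * f' i ∈ S ^ (25 * r)).card ≤
        15 * r * (d ++ c :: cs).countP fun x => z⁻¹ * x ∈ S ^ (39 * r) := by
  induction cs with
  | nil =>
    intro c d L f y h1 h2 h3 h4 h5 _
    refine ⟨L, f, y, h1, by simp, fun i _ => rfl, by simpa using h2, fun z => (h4 z).trans ?_⟩
    gcongr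
    rw [List.countP_append]
    omega
  | cons c' cs ih =>
    intro c d L f y h1 h2 h3 h4 h5 h6
    have hnear : ((range (L + 1)).filter fun i => c⁻¹ * f i ∈ S ^ (14 * r)).card ≤ τ := by
      have e1 : ((range (L + 1)).filter fun i => c⁻¹ * f i ∈ S ^ (14 * r)) ⊆
          range (L0 + 1) ∪ ((Ioc L0 L).filter fun i => c⁻¹ * f i ∈ S ^ (25 * r)) := by
        intro i hi
        rw [mem_filter, mem_range] at hi
        rw [mem_union, mem_range, mem_filter, mem_Ioc]
        by_cases h : i < L0 + 1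
        · exact Or.inl h
        · exact Or.inr ⟨by omega, hS.pow_mono (by omega) hi.2⟩
      have e2 := (card_le_card e1).trans (card_union_le _ _)
      rw [card_range] at e2
      have e3 := h4 c
      have e4 := h5 c
      rw [List.countP_append] at e4
      have e5 : 15 * r * d.countP (fun x => c⁻¹ * x ∈ S ^ (39 * r)) ≤
        15 * r * (d.countP (fun x => c⁻¹ * x ∈ S ^ (39 * r)) +
          (c :: c' :: cs).countP (fun x => c⁻¹ * x ∈ S ^ (39 * r))) := by
        gcongr; omega
      omega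
    rw [List.isChain_cons_cons] at h6
    obtain ⟨L', f', y', g1, g2, g3, g4, g5, g6⟩ := hop hS hr hK hs hN1 hN2 h1 h2 h6.1 hnear
    have key := ih c' (d ++ [c]) L' f' y' g1 g6 (by omega) ?_ ?_ h6.2
    · obtain ⟨L2, f2, y2, k1, k2, k3, k4, k5⟩ := key
      refine ⟨L2, f2, y2, k1, by simp only [List.length_cons]; omega, ?_, ?_, ?_⟩
      · intro i hi
        rw [k3 i (by omega), g4 i hi]
      · rw [List.getLast_cons (by simp)]
        exact k4
      · intro z
        have := k5 z
        rwa [List.append_assoc, List.singleton_append] at this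
    · intro z
      have e1 : ((Ioc L0 L').filter fun i => z⁻¹ * f' i ∈ S ^ (25 * r)) ⊆
          ((Ioc L0 L).filter fun i => z⁻¹ * f i ∈ S ^ (25 * r)) ∪
          ((Ioc L L').filter fun i => z⁻¹ * f' i ∈ S ^ (25 * r)) := by
        intro i hi
        rw [mem_filter, mem_Ioc] at hi
        rw [mem_union, mem_filter, mem_filter, mem_Ioc, mem_Ioc]
        by_cases h : i ≤ L
        · left
          rw [← g4 i h]
          exact ⟨by omega, hi.2⟩
        · right
          exact ⟨by omega, hi.2⟩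
      have e2 := (card_le_card e1).trans (card_union_le _ _)
      have e3 := h4 z
      rw [List.countP_append, mul_add]
      have e4 : ((Ioc L L').filter fun i => z⁻¹ * f' i ∈ S ^ (25 * r)).card ≤
          15 * r * [c].countP (fun x => z⁻¹ * x ∈ S ^ (39 * r)) := by
        by_cases hz : z⁻¹ * c ∈ S ^ (39 * r)
        · have : [c].countP (fun x => z⁻¹ * x ∈ S ^ (39 * r)) = 1 := by simp [hz]
          rw [this]
          refine (card_filter_le _ _).trans ?_
          rw [Nat.card_Ioc]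
          omega
        · have : ((Ioc L L').filter fun i => z⁻¹ * f' i ∈ S ^ (25 * r)) = ∅ := by
            rw [filter_eq_empty_iff]
            intro i hi h
            rw [mem_Ioc] at hi
            apply hz
            have e5 : z⁻¹ * c = (z⁻¹ * f' i) * (c⁻¹ * f' i)⁻¹ := by group
            rw [e5]
            exact hS.pow_mono (by omega) (Sys.mul_pow h (hS.inv_pow (g5 i hi.1 hi.2)))
          rw [this]
          simp
      omega
    · intro z
      have := h5 z
      rwa [List.append_assoc, List.singleton_append]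

end params

/-- A cycle with `n` vertices. -/
structure CycF (H : Subgroup G) (S : Finset G) (n : ℕ) (g : ℕ → G) : Prop where
  inj : ∀ i < n, ∀ j < n, (g i : G ⧸ H) = g j → i = j
  step : ∀ i, i + 1 < n → (g i)⁻¹ * g (i + 1) ∈ S
  close : (g (n - 1))⁻¹ * g 0 ∈ S

open Classical in
/-- Closing up. -/
theorem close (hS : Sys H S) {r ρ1 : ℕ} (hr : 1 ≤ r) {K : Finset G} (hK : Core H S r K)
    {L0 L : ℕ} (hL : L0 < L) {f : ℕ → G} {y c c0 : G} (hst : State H S r K L f y)
    (hc : c⁻¹ * y ∈ S ^ r) (hcc : c⁻¹ * c0 ∈ S ^ (5 * r))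
    (hc0 : ∀ i ≤ L0, c0⁻¹ * f i ∈ S ^ (14 * r))
    (hρ : ((Ioc L0 L).filter fun i => c⁻¹ * f i ∈ S ^ (25 * r)).card ≤ ρ1)
    (hN : 4 * ((22 * r + 1) * (S ^ (22 * r)).card * ρ1) < 3 * (S ^ r).card * (L0 + 1)) :
    ∃ (n : ℕ) (g : ℕ → G), CycF H S n g ∧ L - L0 + 1 ≤ n := by
  have hne : (sat H K).Nonempty := ⟨1, subset_sat hK.one⟩
  have hpos : 0 < Nat.card H := Nat.card_pos
  obtain ⟨k, hk, A, hA1, hA2⟩ := exists_spread hS hne hst.harm
  have hkr := sat_sub hS hr hK hk
  have hAc : ∀ a ∈ A, c⁻¹ * a ∈ S ^ (3 * r) := by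
    intro a ha
    have : c⁻¹ * a = (c⁻¹ * y) * k * ((y * k)⁻¹ * a) := by group
    rw [this]
    exact hS.pow_mono (by omega) (Sys.mul_pow (Sys.mul_pow hc hkr) (hA2 a ha).1)
  set B := univ.filter fun x : G => (x : G ⧸ H) ∈ vs H L0 f with hB
  have hBc : B.card = Nat.card H * (L0 + 1) := by
    rw [hB, card_preimage]
    congr 1
    unfold vs
    rw [card_image_of_injOn, card_range]
    intro i hi j hj h
    rw [mem_coe, mem_range] at hi hj
    exact hst.path.inj i (by omega) j (by omega) h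
  have hBm : ∀ b ∈ B, c0⁻¹ * b ∈ S ^ (14 * r) := by
    intro b hb
    rw [hB, mem_filter] at hb
    obtain ⟨i, hi, h⟩ := mem_vs.1 hb.2
    rw [QuotientGroup.eq] at h
    have := hS.right_pow (by omega) (hc0 i hi) h
    rwa [mul_assoc, mul_inv_cancel_left] at this
  set Z : Finset (G ⧸ H) := (Ioc L0 L).image fun i => (f i : G ⧸ H) with hZ
  set Pn : Finset (G ⧸ H) := ((Ioc L0 L).filter fun i => c⁻¹ * f i ∈ S ^ (25 * r)).image
    fun i => (f i : G ⧸ H) with hPn
  have near25 : ∀ x : G, c⁻¹ * x ∈ S ^ (25 * r) → (x : G ⧸ H) ∈ Z → (x : G ⧸ H) ∈ Pn := by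
    intro x hx hv
    rw [hZ, mem_image] at hv
    obtain ⟨i, hi, h⟩ := hv
    rw [hPn, mem_image]
    refine ⟨i, ?_, h⟩
    rw [mem_filter]
    refine ⟨hi, ?_⟩
    rw [eq_comm, QuotientGroup.eq] at h
    have := hS.right_pow (by omega) hx h
    rwa [mul_assoc, mul_inv_cancel_left] at this
  obtain ⟨a, ha, b, hb, hab⟩ := exists_pair hS (ρ := 22 * r) (τ := ρ1) (A := A) (B := B) (Z := Z)
    (Pn := Pn) (card_image_le.trans hρ)
    (by
      intro a ha b hb
      have : a⁻¹ * b = (c⁻¹ * a)⁻¹ * (c⁻¹ * c0) * (c0⁻¹ * b) := by group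
      rw [this]
      exact hS.pow_mono (by omega)
        (Sys.mul_pow (Sys.mul_pow (hS.inv_pow (hAc a ha)) hcc) (hBm b hb)))
    (by
      intro a ha u hu h
      refine near25 _ ?_ h
      have : c⁻¹ * (a * u) = (c⁻¹ * a) * u := by group
      rw [this]
      exact hS.pow_mono (by omega) (Sys.mul_pow (hAc a ha) hu))
    (by
      rw [hBc]
      have e1 : 3 * (S ^ r).card ≤ 4 * A.card := by omega
      have e2 : 4 * ((22 * r + 1) * (S ^ (22 * r)).card * ρ1) < 4 * A.card * (L0 + 1) :=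
        hN.trans_le (by gcongr)
      have e3 : (22 * r + 1) * (S ^ (22 * r)).card * ρ1 < A.card * (L0 + 1) := by
        nlinarith
      calc (22 * r + 1) * (S ^ (22 * r)).card * (Nat.card H * ρ1) =
            Nat.card H * ((22 * r + 1) * (S ^ (22 * r)).card * ρ1) := by ring
        _ < Nat.card H * (A.card * (L0 + 1)) := Nat.mul_lt_mul_of_pos_left e3 hpos
        _ = _ := by ring)
  obtain ⟨k0, hk0, hk0f⟩ := hst.core_mem
  set U : Set G := {x | (x : G ⧸ H) ∉ Z ∨ (x : G ⧸ H) = f L} with hU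
  have hZvs : ∀ q, q ∈ Z → q ∈ vs H L f := by
    intro q hq
    rw [hZ, mem_image] at hq
    obtain ⟨i, hi, h⟩ := hq
    rw [mem_Ioc] at hi
    exact mem_vs.2 ⟨i, hi.2, h⟩
  have hcoreU : ∀ u ∈ (sat H K : Set G), y * u ∈ U := by
    intro u hu
    obtain ⟨u0, hu0, hu0u⟩ := mem_sat.1 (mem_coe.1 hu)
    have hyu : ((y * u0 : G) : G ⧸ H) = ((y * u : G) : G ⧸ H) := by
      rw [QuotientGroup.eq] at hu0u ⊢
      have : (y * u0)⁻¹ * (y * u) = u0⁻¹ * u := by group
      rwa [this]
    by_cases h : ((y * u : G) : G ⧸ H) ∈ vs H L f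
    · right
      obtain ⟨i, hi, hi2⟩ := mem_vs.1 h
      rcases lt_or_eq_of_le hi with h3 | h3
      · exact absurd (hyu.trans hi2.symm) (hst.core_disj i h3 u0 hu0)
      · rw [← hi2, h3]
    · exact Or.inl fun h' => h (hZvs _ h')
  have w1 : Conn S U r (y * k0) y := by
    have := (sat_conn hS hr hK (subset_sat hk0)).translate y hcoreU
    rw [mul_one] at this
    exact this.symm hS
  have w2 : Conn S U r y (y * k) := by
    have := (sat_conn hS hr hK hk).translate y hcoreU
    rwa [mul_one] at this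
  have w3 : Conn S U r (y * k) a := by
    refine (hA2 a ha).2.mono ?_
    rintro x ⟨hx1, -⟩
    exact Or.inl fun h' => hx1 (hZvs _ h')
  have w4 : Conn S U (22 * r) a b := by
    refine hab.mono ?_
    rintro x ⟨hx1, -⟩
    exact Or.inl hx1
  have w := ((w1.trans w2).trans w3).trans w4
  set T : Set G := {x | (x : G ⧸ H) ∈ vs H L0 f} with hT
  have hbT : b ∈ T := by
    rw [hB, mem_filter] at hb
    exact hb.2
  have hxT : y * k0 ∉ T := by
    intro h
    obtain ⟨i, hi, h2⟩ := mem_vs.1 h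
    rw [hk0f] at h2
    have := hst.path.inj i (by omega) L le_rfl h2
    omega
  obtain ⟨m, hm1, hm2, p, p0, ps, pU, pT, pT', pinj⟩ := min_walk hS (T := T) (by
    intro x hx h' hh'
    have e : ((x * h' : G) : G ⧸ H) = x := by
      rw [QuotientGroup.eq]
      simpa using hh'
    change ((x * h' : G) : G ⧸ H) ∈ vs H L0 f
    rw [e]
    exact hx) w hbT hxT
  have hpL : (p 0 : G ⧸ H) = f L := by rw [p0, hk0f]
  obtain ⟨i0, hi0, hi0p⟩ := mem_vs.1 pT
  have hpd : ∀ i < m, 1 ≤ i → ∀ j ≤ L, (f j : G ⧸ H) ≠ p i := by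
    intro i hi h1 j hj h
    by_cases hj2 : j ≤ L0
    · exact pT' i hi (mem_vs.2 ⟨j, hj2, h⟩)
    · rcases pU i hi.le with h2 | h2
      · apply h2
        rw [hZ, mem_image]
        exact ⟨j, by rw [mem_Ioc]; omega, h⟩
      · have := pinj i hi.le 0 (Nat.zero_le _) (h2.trans hpL.symm)
        omega
  refine ⟨L - i0 + m, fun j => if j ≤ L - i0 then f (i0 + j) else p (j - (L - i0)), ⟨?_, ?_, ?_⟩,
    by omega⟩
  · intro i hi j hj h
    by_cases h1 : i ≤ L - i0 <;> by_cases h2 : j ≤ L - i0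
    · simp only [h1, h2, if_true] at h
      have := hst.path.inj _ (by omega) _ (by omega) h
      omega
    · simp only [h1, h2, if_true, if_false] at h
      exact absurd h (hpd _ (by omega) (by omega) _ (by omega))
    · simp only [h1, h2, if_true, if_false] at h
      exact absurd h.symm (hpd _ (by omega) (by omega) _ (by omega))
    · simp only [h1, h2, if_false] at h
      have := pinj _ (by omega) _ (by omega) h
      omega
  · intro i hi
    rcases lt_trichotomy i (L - i0) with h | h | h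
    · simp only [h.le, if_true, show i + 1 ≤ L - i0 from h]
      rw [← add_assoc]
      exact hst.path.step _ (by omega)
    · simp only [show i ≤ L - i0 by omega, if_true, show ¬ (i + 1 ≤ L - i0) by omega, if_false]
      rw [show i + 1 - (L - i0) = 0 + 1 by omega, show i0 + i = L by omega]
      have h0 := hpL
      rw [eq_comm, QuotientGroup.eq] at h0
      have h4 : (f L)⁻¹ * p (0 + 1) = (f L)⁻¹ * p 0 * ((p 0)⁻¹ * p (0 + 1)) := by group
      rw [h4]
      exact hS.left _ h0 _ (ps 0 (by omega))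
    · simp only [show ¬ (i ≤ L - i0) by omega, show ¬ (i + 1 ≤ L - i0) by omega, if_false]
      rw [show i + 1 - (L - i0) = (i - (L - i0)) + 1 by omega]
      exact ps _ (by omega)
  · simp only [show (0 ≤ L - i0) by omega, if_true, add_zero]
    rw [eq_comm, QuotientGroup.eq] at hi0p
    by_cases hm : m = 1
    · subst hm
      simp only [show L - i0 + 1 - 1 ≤ L - i0 by omega, if_true]
      rw [show i0 + (L - i0 + 1 - 1) = L by omega]
      have h0 := hpL
      rw [eq_comm, QuotientGroup.eq] at h0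
      have h4 : (f L)⁻¹ * f i0 = (f L)⁻¹ * p 0 * ((p 0)⁻¹ * p (0 + 1) * ((p 1)⁻¹ * f i0)) := by
        rw [zero_add]; group
      rw [h4]
      exact hS.left _ h0 _ (hS.right hi0p (ps 0 (by omega)))
    · simp only [show ¬ (L - i0 + m - 1 ≤ L - i0) by omega, if_false]
      rw [show L - i0 + m - 1 - (L - i0) = m - 1 by omega]
      have h4 : (p (m - 1))⁻¹ * f i0 = (p (m - 1))⁻¹ * p m * ((p m)⁻¹ * f i0) := by group
      rw [h4]
      apply hS.right hi0p
      have := ps (m - 1) (by omega)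
      rwa [show m - 1 + 1 = m by omega] at this

end Pool.Agent.N533.LC
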