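import Pool.Agent.N533.LC.Core

/-!
# Paths, saturated cores, shortest walks
-/

set_option autoImplicit false
set_option linter.unusedSectionVars false

open Finset
open scoped Pointwise

namespace Pool.Agent.N533.LC

variable {G : Type*} [Group G] [Fintype G] [DecidableEq G]
variable {H : Subgroup G} {S : Finset G}

open Classical in
/-- All representatives of the vertices of `K`. -/
noncomputable def sat (H : Subgroup G) (K : Finset G) : Finset G :=
  univ.filter fun x : G => (x : G ⧸ H) ∈ K.image fun x : G => (x : G ⧸ H)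

lemma mem_sat {K : Finset G} {x : G} : x ∈ sat H K ↔ ∃ k ∈ K, (k : G ⧸ H) = x := by
  classical
  unfold sat
  simp

lemma card_sat {r : ℕ} {K : Finset G} (hK : Core H S r K) :
    (sat H K).card = Nat.card H * K.card := by
  classical
  unfold sat
  rw [card_preimage, card_image_of_injOn hK.inj]

lemma sat_right {K : Finset G} {x h : G} (hx : x ∈ sat H K) (hh : h ∈ H) : x * h ∈ sat H K := by
  rw [mem_sat] at hx ⊢
  obtain ⟨k, hk, hkx⟩ := hx
  refine ⟨k, hk, ?_⟩
  rw [hkx, QuotientGroup.eq]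
  simpa using hh

lemma subset_sat {K : Finset G} : K ⊆ sat H K := fun x hx => mem_sat.2 ⟨x, hx, rfl⟩

lemma sat_sub (hS : Sys H S) {r : ℕ} (hr : 1 ≤ r) {K : Finset G} (hK : Core H S r K) :
    sat H K ⊆ S ^ r := by
  intro x hx
  obtain ⟨k, hk, hkx⟩ := mem_sat.1 hx
  rw [QuotientGroup.eq] at hkx
  have := hS.right_pow hr (hK.sub hk) hkx
  simpa using this

lemma sat_conn (hS : Sys H S) {r : ℕ} (hr : 1 ≤ r) {K : Finset G} (hK : Core H S r K) {k : G}
    (hk : k ∈ sat H K) : Conn S (sat H K : Set G) r 1 k := by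
  obtain ⟨k0, hk0, hkk⟩ := mem_sat.1 hk
  obtain ⟨q, q0, qr, qs, qU⟩ := hK.conn k0 hk0
  refine ⟨fun i => if i < r then q i else k, ?_, by simp, ?_, ?_⟩
  · simp [show 0 < r by omega, q0]
  · intro i hi
    by_cases h : i + 1 < r
    · simp only [hi, h, if_true]
      exact qs i hi
    · have h2 : i + 1 = r := by omega
      simp only [hi, if_true, h, if_false]
      have h3 := qs i hi
      rw [h2, qr] at h3
      have h4 : (q i)⁻¹ * k = (q i)⁻¹ * k0 * (k0⁻¹ * k) := by group
      rw [h4]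
      rw [QuotientGroup.eq] at hkk
      exact hS.right hkk h3
  · intro i hi
    by_cases h : i < r
    · simp only [h, if_true]
      exact subset_sat (qU i hi)
    · simp only [h, if_false]
      exact hk

/-- Shortest walks from `x` to a set `T`. -/
lemma min_walk (hS : Sys H S) {U T : Set G} (hT : ∀ x ∈ T, ∀ h ∈ H, x * h ∈ T) {n : ℕ} {x b : G}
    (hc : Conn S U n x b) (hb : b ∈ T) (hx : x ∉ T) :
    ∃ m ≤ n, 1 ≤ m ∧ ∃ p : ℕ → G, p 0 = x ∧ (∀ i < m, (p i)⁻¹ * p (i + 1) ∈ S) ∧
      (∀ i ≤ m, p i ∈ U) ∧ p m ∈ T ∧ (∀ i < m, p i ∉ T) ∧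
      ∀ i ≤ m, ∀ j ≤ m, (p i : G ⧸ H) = p j → i = j := by
  classical
  have hex : ∃ m, ∃ b ∈ T, Conn S U m x b := ⟨n, b, hb, hc⟩
  set m := Nat.find hex with hm
  obtain ⟨b', hb', p, p0, pm, ps, pU⟩ := Nat.find_spec hex
  rw [← hm] at pm ps pU
  have hmin : ∀ k < m, ∀ b ∈ T, ¬ Conn S U k x b := by
    intro k hk b hb h
    exact Nat.find_min hex hk ⟨b, hb, h⟩
  have hT' : ∀ i < m, p i ∉ T := by
    intro i hi h
    exact hmin i hi (p i) h ⟨p, p0, rfl, fun j hj => ps j (by omega), fun j hj => pU j (by omega)⟩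
  have hlt : ∀ i j, i < j → j ≤ m → (p i : G ⧸ H) ≠ p j := by
    intro i j hij hj h
    rw [QuotientGroup.eq] at h
    rcases lt_or_eq_of_le hj with hj' | hj'
    · apply hmin (m - (j - i)) (by omega) b' hb'
      refine ⟨fun t => if t ≤ i then p t else p (t + (j - i)), by simp [p0], ?_, ?_, ?_⟩
      · simp only [show ¬ (m - (j - i) ≤ i) by omega, if_false]
        rw [show m - (j - i) + (j - i) = m by omega, pm]
      · intro t ht
        rcases lt_trichotomy t i with h1 | h1 | h1
        · simp only [h1.le, if_true, show t + 1 ≤ i from h1]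
          exact ps t (by omega)
        · subst h1
          simp only [le_refl, if_true, show ¬ (t + 1 ≤ t) by omega, if_false]
          rw [show t + 1 + (j - t) = j + 1 by omega]
          have h4 : (p t)⁻¹ * p (j + 1) = (p t)⁻¹ * p j * ((p j)⁻¹ * p (j + 1)) := by group
          rw [h4]
          exact hS.left _ h _ (ps j hj')
        · simp only [show ¬ (t ≤ i) by omega, show ¬ (t + 1 ≤ i) by omega, if_false]
          rw [show t + 1 + (j - i) = t + (j - i) + 1 by omega]
          exact ps _ (by omega)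
      · intro t ht
        by_cases h1 : t ≤ i
        · simp only [h1, if_true]; exact pU t (by omega)
        · simp only [h1, if_false]; exact pU _ (by omega)
    · rw [hj'] at hij h
      apply hT' i hij
      have h5 := hT (p m) (pm ▸ hb') _ (H.inv_mem h)
      simpa using h5
  refine ⟨m, Nat.find_min' hex ⟨b, hb, hc⟩, ?_, p, p0, ps, pU, pm ▸ hb', hT', ?_⟩
  · rw [Nat.one_le_iff_ne_zero]
    intro h0
    rw [h0] at pm
    exact hx (by rw [← p0, pm]; exact hb')
  · intro i hi j hj h
    rcases lt_trichotomy i j with h1 | h1 | h1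
    · exact absurd h (hlt i j h1 hj)
    · exact h1
    · exact absurd h.symm (hlt j i h1 hi)

/-- `f` is a path with the `L + 1` different vertices `f 0, ..., f L`. -/
structure PathF (H : Subgroup G) (S : Finset G) (L : ℕ) (f : ℕ → G) : Prop where
  inj : ∀ i ≤ L, ∀ j ≤ L, (f i : G ⧸ H) = f j → i = j
  step : ∀ i < L, (f i)⁻¹ * f (i + 1) ∈ S

open Classical in
/-- the vertices of the path -/
noncomputable def vs (H : Subgroup G) (L : ℕ) (f : ℕ → G) : Finset (G ⧸ H) :=
  (range (L + 1)).image fun i => (f i : G ⧸ H)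

lemma mem_vs {L : ℕ} {f : ℕ → G} {q : G ⧸ H} : q ∈ vs H L f ↔ ∃ i ≤ L, (f i : G ⧸ H) = q := by
  classical
  unfold vs
  simp

open Classical in
/-- the number of blocked pairs at the core `y K` -/
noncomputable def harm (H : Subgroup G) (S : Finset G) (r : ℕ) (K : Finset G)
    (Z : Finset (G ⧸ H)) (y : G) : ℕ :=
  ((sat H K ×ˢ (S ^ r)).filter fun p => Hit H S Z r (y * p.1) p.2).card

open Classical in
lemma card_filter_prod {α β : Type*} (A : Finset α) (B : Finset β) (p : α × β → Prop)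
    [DecidablePred p] :
    ((A ×ˢ B).filter p).card = ∑ a ∈ A, (B.filter fun b => p (a, b)).card := by
  rw [card_filter, sum_product]
  refine sum_congr rfl fun a _ => ?_
  rw [card_filter]

open Classical in
lemma harm_eq (r : ℕ) (K : Finset G) (Z : Finset (G ⧸ H)) (y : G) :
    harm H S r K Z y = ∑ k ∈ sat H K, ((S ^ r).filter fun g => Hit H S Z r (y * k) g).card := by
  unfold harm
  rw [card_filter_prod]

open Classical in
lemma count_hit' (Q : Finset G) (Z Z' : Finset (G ⧸ H)) (r : ℕ)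
    (hZ : ∀ a ∈ Q, ∀ u ∈ S ^ r, ((a * u : G) : G ⧸ H) ∈ Z → ((a * u : G) : G ⧸ H) ∈ Z')
    (hS : Sys H S) :
    ∑ a ∈ Q, ((S ^ r).filter fun g => Hit H S Z r a g).card ≤
      (r + 1) * (S ^ r).card * (Nat.card H * Z'.card) := by
  rw [← card_filter_prod Q (S ^ r) (fun p => Hit H S Z r p.1 p.2)]
  exact count_hit Q Z Z' r hZ hS

lemma harm_le (hS : Sys H S) (r : ℕ) (K : Finset G) (Z : Finset (G ⧸ H)) (y : G) :
    harm H S r K Z y ≤ (r + 1) * (S ^ r).card * (Nat.card H * Z.card) := by
  classical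
  rw [harm_eq]
  have h := count_hit' ((sat H K).image (y * ·)) Z Z r (fun _ _ _ _ h => h) hS
  rw [sum_image (fun a _ b _ h => mul_left_cancel h)] at h
  exact h

lemma harm_union (r : ℕ) (K : Finset G) (Z Z1 Z2 : Finset (G ⧸ H))
    (hZ : ∀ q ∈ Z, q ∈ Z1 ∨ q ∈ Z2) (y : G) :
    harm H S r K Z y ≤ harm H S r K Z1 y + harm H S r K Z2 y := by
  classical
  unfold harm
  refine (card_le_card ?_).trans (card_union_le _ _)
  intro p hp
  rw [mem_filter] at hp
  obtain ⟨hp1, i, hi, h⟩ := hp
  rw [mem_union, mem_filter, mem_filter]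
  rcases hZ _ h with h | h
  · exact Or.inl ⟨hp1, i, hi, h⟩
  · exact Or.inr ⟨hp1, i, hi, h⟩

open Classical in
/-- a good vertex of the core -/
lemma exists_good {r : ℕ} {K : Finset G} (hne : (sat H K).Nonempty) {Z : Finset (G ⧸ H)} {y : G}
    {a : ℕ} (ha : a * harm H S r K Z y ≤ (sat H K).card * (S ^ r).card) :
    ∃ k ∈ sat H K, a * ((S ^ r).filter fun g => Hit H S Z r (y * k) g).card ≤ (S ^ r).card := by
  by_contra hcon
  push Not at hcon
  rw [harm_eq, mul_sum] at ha
  have h1 : ∑ k ∈ sat H K, (S ^ r).card <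
      ∑ k ∈ sat H K, a * ((S ^ r).filter fun g => Hit H S Z r (y * k) g).card :=
    sum_lt_sum_of_nonempty hne hcon
  rw [sum_const, smul_eq_mul] at h1
  omega

end Pool.Agent.N533.LC
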