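import Pool.Agent.N533.LC.Main

/-!
# Long cycles in vertex-transitive graphs
-/

set_option autoImplicit false
set_option linter.unusedSectionVars false

open Finset Real
open scoped Pointwise

namespace Pool.Agent.N533.LC

section vt

variable {V : Type*} {Γ : SimpleGraph V} {G : Type*} [Group G] [Fintype G] [DecidableEq G]
variable [MulAction G V]

open Classical in
/-- The elements which move `o` to `o` or to a neighbour of `o`. -/
noncomputable def nearSet (G : Type*) [Group G] [Fintype G] [MulAction G V] (Γ : SimpleGraph V)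
    (o : V) : Finset G :=
  univ.filter fun g => g • o = o ∨ Γ.Adj o (g • o)

lemma mem_nearSet {o : V} {g : G} : g ∈ nearSet G Γ o ↔ g • o = o ∨ Γ.Adj o (g • o) := by
  classical
  simp [nearSet]

lemma sys_nearSet (hadj : ∀ (g : G) (u v : V), Γ.Adj u v → Γ.Adj (g • u) (g • v)) (o : V) :
    Sys (MulAction.stabilizer G o) (nearSet G Γ o) where
  one := by rw [mem_nearSet]; left; simp
  inv := by
    intro x hx
    rw [mem_nearSet] at hx ⊢
    rcases hx with hx | hx
    · left; rw [inv_smul_eq_iff, hx]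
    · right
      have := hadj x⁻¹ _ _ hx
      rw [inv_smul_smul] at this
      exact this.symm
  left := by
    intro h hh x hx
    rw [MulAction.mem_stabilizer_iff] at hh
    rw [mem_nearSet] at hx ⊢
    rcases hx with hx | hx
    · left; rw [mul_smul, hx, hh]
    · right
      have := hadj h _ _ hx
      rwa [hh, ← mul_smul] at this

lemma mem_pow_nearSet (hconn : Γ.Connected)
    (hadj : ∀ (g : G) (u v : V), Γ.Adj u v → Γ.Adj (g • u) (g • v))
    (htr : ∀ u v : V, ∃ g : G, g • u = v) (o : V) (r : ℕ) :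
    ∀ g : G, g ∈ (nearSet G Γ o) ^ r ↔ g = 1 ∨ (1 ≤ r ∧ Γ.dist o (g • o) ≤ r) := by
  have hS := sys_nearSet (G := G) hadj o
  induction r with
  | zero => intro g; simp
  | succ r ih =>
    intro g
    constructor
    · intro hg
      right
      refine ⟨by omega, ?_⟩
      rw [pow_succ, mem_mul] at hg
      obtain ⟨y, hy, z, hz, rfl⟩ := hg
      have h1 : Γ.dist o (y • o) ≤ r := by
        rcases (ih y).1 hy with rfl | ⟨-, h⟩
        · simp
        · exact h
      have h2 : Γ.dist (y • o) ((y * z) • o) ≤ 1 := by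
        rw [mem_nearSet] at hz
        rcases hz with hz | hz
        · rw [mul_smul, hz]; simp
        · have h3 := hadj y _ _ hz
          rw [← mul_smul] at h3
          exact (SimpleGraph.dist_eq_one_iff_adj.2 h3).le
      calc Γ.dist o ((y * z) • o) ≤ Γ.dist o (y • o) + Γ.dist (y • o) ((y * z) • o) :=
            hconn.dist_triangle
        _ ≤ r + 1 := by omega
    · rintro (rfl | ⟨-, hg⟩)
      · exact hS.one_pow _
      · by_cases hle : Γ.dist o (g • o) ≤ r ∧ 1 ≤ r
        · exact hS.pow_mono (Nat.le_succ r) ((ih g).2 (Or.inr ⟨hle.2, hle.1⟩))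
        · by_cases h0 : Γ.dist o (g • o) = 0
          · rw [hconn.dist_eq_zero_iff] at h0
            refine hS.pow_mono (by omega : 1 ≤ r + 1) ?_
            rw [pow_one, mem_nearSet]
            left; exact h0.symm
          · -- the last but one vertex of a shortest walk
            obtain ⟨q, hq⟩ : ∃ q, q = g • o := ⟨_, rfl⟩
            rw [← hq] at hg h0 hle
            obtain ⟨w, hw⟩ := (hconn.preconnected q o).exists_walk_length_eq_dist
            have hw2 : w.length = Γ.dist o q := by rw [hw, SimpleGraph.dist_comm]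
            cases w with
            | nil => exact absurd (by simp) h0
            | cons h p =>
              rename_i u
              rw [SimpleGraph.Walk.length_cons] at hw2
              subst hq
              have h1 : Γ.dist o u ≤ r := by
                rw [SimpleGraph.dist_comm]
                have := SimpleGraph.dist_le p
                omega
              obtain ⟨y, hy⟩ := htr o u
              have hy2 : y ∈ (nearSet G Γ o) ^ r ∨ u = o := by
                by_cases hr : 1 ≤ r
                · left; rw [ih]; right; exact ⟨hr, by rw [hy]; exact h1⟩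
                · right
                  have : Γ.dist o u = 0 := by omega
                  exact (hconn.dist_eq_zero_iff.1 this).symm
              rcases hy2 with hy2 | hu
              · rw [pow_succ, mem_mul]
                refine ⟨y, hy2, y⁻¹ * g, ?_, by group⟩
                rw [mem_nearSet]
                right
                have h2 := hadj y⁻¹ _ _ h.symm
                rw [← hy, inv_smul_smul, ← mul_smul] at h2
                exact h2
              · subst hu
                refine hS.pow_mono (by omega : 1 ≤ r + 1) ?_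
                rw [pow_one, mem_nearSet]
                right; exact h.symm

lemma Nv_nearSet (hconn : Γ.Connected)
    (hadj : ∀ (g : G) (u v : V), Γ.Adj u v → Γ.Adj (g • u) (g • v))
    (htr : ∀ u v : V, ∃ g : G, g • u = v) (o : V) {r : ℕ} (hr : 1 ≤ r) :
    Nv (MulAction.stabilizer G o) (nearSet G Γ o) r = {v : V | Γ.dist o v ≤ r}.ncard := by
  classical
  unfold Nv
  have hinj := MulAction.injective_ofQuotientStabilizer G o
  rw [← Finset.card_image_of_injective _ hinj, ← Set.ncard_coe_finset]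
  congr 1
  ext v
  simp only [Finset.coe_image, Set.mem_image, Finset.mem_coe, Set.mem_ofPred_eq]
  constructor
  · rintro ⟨q, ⟨g, hg, rfl⟩, rfl⟩
    rw [MulAction.ofQuotientStabilizer_mk]
    rcases (mem_pow_nearSet hconn hadj htr o r g).1 hg with rfl | ⟨-, h⟩
    · simp
    · exact h
  · intro hv
    obtain ⟨g, hg⟩ := htr o v
    refine ⟨(g : G ⧸ MulAction.stabilizer G o), ⟨g, ?_, rfl⟩, ?_⟩
    · rw [mem_pow_nearSet hconn hadj htr o r g]
      right
      exact ⟨hr, by rw [hg]; exact hv⟩
    · rw [MulAction.ofQuotientStabilizer_mk, hg]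

lemma gen_nearSet (hconn : Γ.Connected)
    (hadj : ∀ (g : G) (u v : V), Γ.Adj u v → Γ.Adj (g • u) (g • v))
    (htr : ∀ u v : V, ∃ g : G, g • u = v) (o : V) :
    Subgroup.closure ((nearSet G Γ o : Finset G) : Set G) = ⊤ := by
  rw [eq_top_iff]
  intro g _
  have h1 : g ∈ (nearSet G Γ o) ^ (Γ.dist o (g • o) + 1) := by
    rw [mem_pow_nearSet hconn hadj htr o]
    right
    exact ⟨by omega, by omega⟩
  have h2 : ∀ n : ℕ, ∀ x ∈ (nearSet G Γ o) ^ n,
      x ∈ Subgroup.closure ((nearSet G Γ o : Finset G) : Set G) := by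
    intro n
    induction n with
    | zero => intro x hx; rw [pow_zero, Finset.mem_one] at hx; rw [hx]; exact one_mem _
    | succ n ih =>
      intro x hx
      rw [pow_succ, mem_mul] at hx
      obtain ⟨y, hy, z, hz, rfl⟩ := hx
      exact mul_mem (ih y hy) (Subgroup.subset_closure (mem_coe.2 hz))
  exact h2 _ g h1

/-- A cycle of cosets gives a cycle of the graph. -/
lemma cycle_of_cyc (hadj : ∀ (g : G) (u v : V), Γ.Adj u v → Γ.Adj (g • u) (g • v)) {o : V} {n : ℕ}
    (hn : 3 ≤ n) {g : ℕ → G} (hg : CycF (MulAction.stabilizer G o) (nearSet G Γ o) n g) :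
    ∃ (v : V) (w : Γ.Walk v v), w.IsCycle ∧ w.length = n := by
  rw [← SimpleGraph.cycleGraph_isContained_iff (by omega)]
  have hinj : ∀ i < n, ∀ j < n, g i • o = g j • o → i = j := by
    intro i hi j hj h
    refine hg.inj i hi j hj ?_
    rw [QuotientGroup.eq, MulAction.mem_stabilizer_iff, mul_smul, ← h, inv_smul_smul]
  have hst : ∀ i < n, ∀ j < n, i ≠ j → (g i)⁻¹ * g j ∈ nearSet G Γ o →
      Γ.Adj (g i • o) (g j • o) := by
    intro i hi j hj hij h
    rw [mem_nearSet] at h
    rcases h with h | h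
    · rw [mul_smul, inv_smul_eq_iff] at h
      exact absurd (hinj j hj i hi h).symm hij
    · have := hadj (g i) _ _ h
      rwa [← mul_smul, mul_inv_cancel_left] at this
  have key : ∀ u v : Fin n, (v - u).val = 1 → Γ.Adj (g u.val • o) (g v.val • o) := by
    intro u v h
    have hu := u.isLt
    have hv := v.isLt
    rw [Fin.sub_def] at h
    simp only at h
    by_cases hc : u.val + 1 < n
    · have e : v.val = u.val + 1 := by
        by_cases huv : u.val ≤ v.val
        · have h1 : n - u.val + v.val = (v.val - u.val) + n := by omega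
          rw [h1, Nat.add_mod_right, Nat.mod_eq_of_lt (by omega)] at h
          omega
        · rw [Nat.mod_eq_of_lt (by omega)] at h
          omega
      rw [e]
      exact hst _ hu _ hc (by omega) (hg.step u.val hc)
    · have e : u.val = n - 1 := by omega
      have e2 : v.val = 0 := by
        rw [e, show n - (n - 1) + v.val = v.val + 1 by omega] at h
        by_contra hv0
        by_cases hvn : v.val + 1 < n
        · rw [Nat.mod_eq_of_lt hvn] at h; omega
        · rw [show v.val + 1 = n by omega, Nat.mod_self] at h; omega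
      rw [e, e2]
      exact hst _ (by omega) _ (by omega) (by omega) hg.close
  refine ⟨⟨⟨fun i => g i.val • o, ?_⟩, ?_⟩⟩
  · intro u v huv
    rw [SimpleGraph.cycleGraph_adj'] at huv
    rcases huv with h | h
    · exact (key v u h).symm
    · exact key u v h
  · intro u v h
    exact Fin.ext (hinj _ u.isLt _ v.isLt h)

end vt

/-- A connected vertex-transitive graph with at least three vertices has a cycle. -/
lemma exists_cycle {V : Type*} [Finite V] {Γ : SimpleGraph V} (hconn : Γ.Connected)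
    (htr : ∀ u v : V, ∃ φ : Γ ≃g Γ, φ u = v) (h3 : 3 ≤ Nat.card V) :
    ∃ (v : V) (w : Γ.Walk v v), w.IsCycle := by
  classical
  have : Fintype V := Fintype.ofFinite V
  by_contra hcon
  push Not at hcon
  have hT : Γ.IsTree := ⟨hconn, fun v w hw => hcon v w hw⟩
  have hnt : Nontrivial V := by
    rw [← Fintype.one_lt_card_iff_nontrivial, ← Nat.card_eq_fintype_card]
    omega
  obtain ⟨o, ho⟩ := hT.exists_vert_degree_one_of_nontrivial
  have hdeg : ∀ v, Γ.degree v = 1 := by
    intro v
    obtain ⟨φ, hφ⟩ := htr o v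
    rw [← ho, ← hφ]
    exact φ.degree_eq o
  have h1 := hT.card_edgeFinset
  have h2 := Γ.sum_degrees_eq_twice_card_edges
  rw [Finset.sum_congr rfl (fun v _ => hdeg v), Finset.sum_const, Finset.card_univ, smul_eq_mul,
    mul_one] at h2
  rw [Nat.card_eq_fintype_card] at h3
  omega

/-- **Long cycles in vertex-transitive graphs.** -/
theorem vt_bound {V : Type*} [Finite V] {Γ : SimpleGraph V} (hconn : Γ.Connected)
    (htr : ∀ u v : V, ∃ φ : Γ ≃g Γ, φ u = v) (o : V) {r : ℕ} (hr : 1 ≤ r)
    (hball : 10 ^ 40 * r ^ 5 ≤ {v : V | Γ.dist o v ≤ r}.ncard) :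
    ∃ (v : V) (w : Γ.Walk v v), w.IsCycle ∧
      (Nat.card V : ℝ) ≤ w.length * (r ^ 4 * exp (600 * √(log (Nat.card V)))) := by
  classical
  have : Finite (Γ ≃g Γ) := by
    apply Finite.of_injective (fun φ : Γ ≃g Γ => (φ : V → V))
    intro φ ψ h
    exact RelIso.ext (congrFun h)
  have : Fintype (Γ ≃g Γ) := Fintype.ofFinite _
  let _ : MulAction (Γ ≃g Γ) V :=
    { smul := fun φ v => φ v
      one_smul := fun v => rfl
      mul_smul := fun φ ψ v => rfl }
  have hsm : ∀ (φ : Γ ≃g Γ) (v : V), φ • v = φ v := fun _ _ => rfl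
  have hadj : ∀ (φ : Γ ≃g Γ) (u v : V), Γ.Adj u v → Γ.Adj (φ • u) (φ • v) := by
    intro φ u v h
    rw [hsm, hsm]
    exact φ.map_adj_iff.2 h
  have htr' : ∀ u v : V, ∃ φ : Γ ≃g Γ, φ • u = v := htr
  have hcard : Nat.card ((Γ ≃g Γ) ⧸ MulAction.stabilizer (Γ ≃g Γ) o) = Nat.card V := by
    apply Nat.card_congr
    refine Equiv.ofBijective (MulAction.ofQuotientStabilizer (Γ ≃g Γ) o)
      ⟨MulAction.injective_ofQuotientStabilizer _ o, ?_⟩
    intro v
    obtain ⟨φ, hφ⟩ := htr' o v
    exact ⟨φ, by rw [MulAction.ofQuotientStabilizer_mk, hφ]⟩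
  have hb : 10 ^ 40 * r ^ 5 ≤ Nv (MulAction.stabilizer (Γ ≃g Γ) o) (nearSet (Γ ≃g Γ) Γ o) r := by
    rw [Nv_nearSet hconn hadj htr' o hr]
    exact hball
  obtain ⟨n, g, hg, hn⟩ := main_bound (sys_nearSet hadj o) (gen_nearSet hconn hadj htr' o) hr hb
  rw [hcard] at hn
  by_cases h3 : 3 ≤ n
  · obtain ⟨v, w, hw, hlen⟩ := cycle_of_cyc hadj h3 hg
    exact ⟨v, w, hw, by rwa [hlen]⟩
  · have hbig : 3 ≤ Nat.card V := by
      have h1 := hb.trans (Nv_le r)
      rw [hcard] at h1
      have h2 : 10 ^ 40 ≤ 10 ^ 40 * r ^ 5 := Nat.le_mul_of_pos_right _ (by positivity)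
      calc 3 ≤ 10 ^ 40 := by norm_num
        _ ≤ _ := h2.trans h1
    obtain ⟨v, w, hw⟩ := exists_cycle hconn htr hbig
    refine ⟨v, w, hw, hn.trans ?_⟩
    have h4 : (n : ℝ) ≤ w.length := by
      have := hw.three_le_length
      exact_mod_cast (by omega : n ≤ w.length)
    gcongr

/-- From the quantitative to the qualitative form. -/
lemma eps_form {ε : ℝ} (hε : 0 < ε) (R : ℕ) : ∃ N₀ : ℕ, ∀ N : ℕ, N₀ ≤ N → ∀ r : ℕ, r ≤ R →
    ∀ L : ℝ, 0 ≤ L → (N : ℝ) ≤ L * (r ^ 4 * exp (600 * √(log N))) → (N : ℝ) ^ (1 - ε) ≤ L := by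
  obtain ⟨N₀, hN₀⟩ := exists_nat_ge
    (exp ((1200 / ε) ^ 2 + 2 / ε * log (((R + 1 : ℕ) : ℝ) ^ 4)))
  refine ⟨N₀, ?_⟩
  intro n hN r hr L hL hlen
  have hNpos : (0 : ℝ) < n := by
    have h1 : (0 : ℝ) < N₀ := lt_of_lt_of_le (exp_pos _) hN₀
    have h2 : (N₀ : ℝ) ≤ n := by exact_mod_cast hN
    linarith
  set N : ℝ := ((n : ℕ) : ℝ) with hNdef
  have hR1 : (1 : ℝ) ≤ ((R + 1 : ℕ) : ℝ) ^ 4 := by
    apply one_le_pow₀
    push_cast
    linarith [(Nat.cast_nonneg R : (0 : ℝ) ≤ R)]
  have hlogR : 0 ≤ log (((R + 1 : ℕ) : ℝ) ^ 4) := log_nonneg hR1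
  have hlog : (1200 / ε) ^ 2 + 2 / ε * log (((R + 1 : ℕ) : ℝ) ^ 4) ≤ log N := by
    rw [le_log_iff_exp_le hNpos]
    refine hN₀.trans ?_
    rw [hNdef]
    exact_mod_cast hN
  have h2ε : 0 ≤ 2 / ε * log (((R + 1 : ℕ) : ℝ) ^ 4) := by positivity
  have hlog0 : 0 ≤ log N := by
    have : 0 ≤ (1200 / ε) ^ 2 := by positivity
    linarith
  set s := √(log N) with hs
  have hss : s * s = log N := mul_self_sqrt hlog0
  have hs0 : 0 ≤ s := sqrt_nonneg _
  have hs1 : 1200 / ε ≤ s := by
    rw [hs]
    apply le_sqrt_of_sq_le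
    linarith
  have h1 : 600 * s ≤ ε / 2 * log N := by
    have h2 : 1200 ≤ ε * s := by
      rw [div_le_iff₀ hε] at hs1
      linarith
    rw [← hss]
    nlinarith
  have h2 : log (((R + 1 : ℕ) : ℝ) ^ 4) ≤ ε / 2 * log N := by
    have h3 : 2 / ε * log (((R + 1 : ℕ) : ℝ) ^ 4) ≤ log N := by
      have : 0 ≤ (1200 / ε) ^ 2 := by positivity
      linarith
    calc log (((R + 1 : ℕ) : ℝ) ^ 4) = ε / 2 * (2 / ε * log (((R + 1 : ℕ) : ℝ) ^ 4)) := by
          field_simp
      _ ≤ _ := by gcongr
  have h3 : (r : ℝ) ^ 4 * exp (600 * s) ≤ N ^ ε := by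
    have h4 : (r : ℝ) ^ 4 ≤ exp (ε / 2 * log N) := by
      calc (r : ℝ) ^ 4 ≤ ((R + 1 : ℕ) : ℝ) ^ 4 := by
            gcongr
            omega
        _ = exp (log (((R + 1 : ℕ) : ℝ) ^ 4)) := (exp_log (by linarith)).symm
        _ ≤ _ := exp_le_exp.2 h2
    calc (r : ℝ) ^ 4 * exp (600 * s) ≤ exp (ε / 2 * log N) * exp (ε / 2 * log N) := by
          gcongr
      _ = exp (log N * ε) := by rw [← exp_add]; congr 1; ring
      _ = N ^ ε := by rw [rpow_def_of_pos hNpos]
  have h4 : N ≤ L * N ^ ε := hlen.trans (by gcongr)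
  rw [rpow_sub hNpos, rpow_one, div_le_iff₀ (rpow_pos_of_pos hNpos _)]
  exact h4

end Pool.Agent.N533.LC
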